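import Pool.Agent.helper80.SG.Core
import Pool.Agent.helper23.BL.B2
import Pool.Agent.helper1.BL.B3
import Pool.Agent.helper70.BL.B4
import Pool.Agent.helper27.BL.MFA
import Pool.Agent.helper78.BL.S11
import Pool.Agent.helper67.BL.BLN
import Pool.Agent.helper85.BL.BLZ
import Pool.Agent.helper99.SQ.EN2
import Pool.Agent.helper25.SG.ES2

/-!
# Project bl: (MP_b5a345_ag): classification of all line bundles on many products: assembly
-/

set_option autoImplicit false

namespace Pool.Agent.SG

open Pool.Agent.SV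

theorem ES2' : ES2_stmt := ES2 ST2' EN2
theorem MFA' : MFA_stmt := MFA THR'' ST2'
theorem BLN' : BLN_stmt := BLN MFA' (B2 THR'' ST2') (B3 THR'' ST2') (B4 THR'' ST2') (S11 MHS DIM) Z0''
theorem BLZ' : BLZ_stmt := BLZ BLN' ZB''

end Pool.Agent.SG
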