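import Pool.Agent.helper80.SV.Final
import Pool.Agent.helper14.SQ.TT5
import Pool.Agent.helper97.SG.CN1
import Pool.Agent.helper93.SG.CNP
import Pool.Agent.helper65.SG.AG2
import Pool.Agent.helper67.SG.ASM
import Pool.Agent.helper25.SG.SC2
import Pool.Agent.helper71.SQ.DF5
import Pool.Agent.helper13.SG.EQV
import Pool.Agent.helper22.SG.HM2
import Pool.Agent.helper77.SQ.ABM
import Pool.Agent.helper53.SQ.BCM
import Pool.Agent.helper82.SQ.ZRM
import Pool.Agent.helper72.SQ.MNM
import Pool.Agent.helper67.SG.RKM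
import Pool.Agent.helper24.SQ.UGM
import Pool.Agent.helper21.SQ.LP5
import Pool.Agent.helper76.SQ.VS5
import Pool.Agent.helper31.SG.RU5
import Pool.Agent.helper86.SQ.RL5
import Pool.Agent.helper6.SG2.HS2
import Pool.Agent.helper23.SG.AN2
import Pool.Agent.helper24.SG.TRN
import Pool.Agent.helper46.SG.CFN
import Pool.Agent.helper18.SG.RKS
import Pool.Agent.helper70.SG.ID3
import Pool.Agent.helper84.SG.DEC
import Pool.Agent.helper70.SG.CPL
import Pool.Agent.helper90.SG.RLS
import Pool.Agent.helper82.SG.RLH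
import Pool.Agent.helper93.SG.RLT

/-!
# Projects sg:, sq: (MP_b5a345_ag, a factor of degree one): assembly
-/

set_option autoImplicit false

namespace Pool.Agent.SG

open Pool.Agent.SV

theorem UGM' : UGM_stmt := UGM GAL (GKR T1)
theorem MNM' : MNM_stmt := MNM UGM'
theorem BCM' : BCM_stmt := BCM T1
theorem ABM' : ABM_stmt := ABM BCM' ZRM MNM' RKM UGM'
theorem HM2' : HM2_stmt := HM2 HOM
theorem EQV' : EQV_stmt := EQV HM2' HOM CHN
theorem DF5' : DF5_stmt := DF5 HM2' EQV' PLY HSB HPT' SPN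
theorem RL5' : RL5_stmt := RL5 RLS RLH RLT ID3 EUL RKL'
theorem TT5' : TT5_stmt := TT5 ABM' RKM (LP5 PLY) DF5' (VS5 VIS') (RU5 RKU') RL5'
theorem CNP' : CNP_stmt := CNP (CN1 TT5') (CPL PLY) SMP (GKR T1)
theorem ASM' : ASM_stmt := ASM ID3 (DEC EUL HOM)
theorem AG2' : AG2_stmt := AG2 AN2 HS2 TRN CFN RKS
theorem SC2' : SC2_stmt := SC2 CNP' ASM' AG2' DIM GAL MHS

/-- The theorem: a factor of degree one, quadratic threshold. -/
theorem ST2' : ST2_stmt := ST2 SC2' ALR''

end Pool.Agent.SG
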