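import Pool.Agent.helper80.SV.Spec

/-!
# Project sg: (MP_b5a345_ag, a factor of degree one): definitions

Paper: /team-store/SG_NOTES_helper80.md.
-/

set_option autoImplicit false
set_option linter.unusedSectionVars false

namespace Pool.Agent.SG

open MvPolynomial Module Pool.Agent.SV

variable {ι κ : Type} [Fintype ι] [DecidableEq ι] [Fintype κ] [DecidableEq κ]

/-- The three points of the cluster with parameter `P = (x, x')`: on the colours of `T` the
coordinates are `x` (`a = 0`), `x'` (`a = 1`), `x + x'` (`a = 2`); on the other colours always `x`. -/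
def ptc (c : ι → κ) (T : Finset κ) (a : Fin 3) (P : (ι → ℂ) × (ι → ℂ)) : ι → ℂ := fun i =>
  if c i ∈ T then (if a = 0 then P.1 i else if a = 1 then P.2 i else P.1 i + P.2 i) else P.1 i

/-- Two types of conditions on the polynomials of multidegree `d`: `true` = singular at `P.1`,
`false` = singular at the three points of the cluster `P`. -/
noncomputable def PhiC (c : ι → κ) (T : Finset κ) (d : κ → ℕ) (τ : Bool) (P : (ι → ℂ) × (ι → ℂ)) :
    ↥(Sec c Finset.univ d) →ₗ[ℂ] (Fin 3 × ι → ℂ) :=
  (LinearMap.pi fun ai : Fin 3 × ι =>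
    if τ = true ∧ ai.1 ≠ 0 then 0 else (evL (ptc c T ai.1 P)) ∘ₗ (pderiv ai.2).toLinearMap) ∘ₗ
    (Sec c Finset.univ d).subtype

theorem PhiC_apply (c : ι → κ) (T : Finset κ) (d : κ → ℕ) (τ : Bool) (P : (ι → ℂ) × (ι → ℂ))
    (f : ↥(Sec c Finset.univ d)) (a : Fin 3) (i : ι) :
    PhiC c T d τ P f (a, i) = if τ = true ∧ a ≠ 0 then 0 else
      eval (ptc c T a P) (pderiv i (f : MvPolynomial ι ℂ)) := by
  unfold PhiC
  by_cases h : τ = true ∧ a ≠ 0
  · simp [h]
  · simp [h]

/-- the functional `f ↦ f(x)` (`none`) or `f ↦ ∂_i f(x)` (`some i`) -/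
noncomputable def fnl (x : ι → ℂ) (o : Option ι) : MvPolynomial ι ℂ →ₗ[ℂ] ℂ :=
  match o with
  | none => evL x
  | some i => evL x ∘ₗ (pderiv i).toLinearMap

@[simp] theorem fnl_none (x : ι → ℂ) (f : MvPolynomial ι ℂ) : fnl x none f = eval x f := by
  simp [fnl]

@[simp] theorem fnl_some (x : ι → ℂ) (i : ι) (f : MvPolynomial ι ℂ) :
    fnl x (some i) f = eval x (pderiv i f) := by
  simp [fnl]

/-- the functional `f ↦ ∑_{c i ∈ T} x'_i ∂_i f(x)` of the target component -/
noncomputable def tgtL (c : ι → κ) (T : Finset κ) (P : (ι → ℂ) × (ι → ℂ)) :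
    MvPolynomial ι ℂ →ₗ[ℂ] ℂ :=
  ∑ i ∈ Finset.univ.filter (fun i => c i ∈ T), P.2 i • fnl P.1 (some i)

theorem tgtL_apply (c : ι → κ) (T : Finset κ) (P : (ι → ℂ) × (ι → ℂ)) (f : MvPolynomial ι ℂ) :
    tgtL c T P f = ∑ i ∈ Finset.univ.filter (fun i => c i ∈ T), P.2 i * eval P.1 (pderiv i f) := by
  simp [tgtL]

/-- the functionals attached to a cluster: `none` = target functional, `some (a, o)` = value
(`o = none`) or derivative (`o = some i`) at the `a`-th point. -/
noncomputable def roleF (c : ι → κ) (T : Finset κ) (P : (ι → ℂ) × (ι → ℂ))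
    (o : Option (Fin 3 × Option ι)) : MvPolynomial ι ℂ →ₗ[ℂ] ℂ :=
  match o with
  | none => tgtL c T P
  | some ao => fnl (ptc c T ao.1 P) ao.2

/-- which functionals are imposed on a component with role `ρ`: roles `0` = none, `1` = target,
`2` = host, `3` = source. All roles: values at the three points. Target: the target functional.
Host: the derivatives at the point `2`. Source: the derivatives at the points `0` and `1`. -/
def used (ρ : Fin 4) (o : Option (Fin 3 × Option ι)) : Bool :=
  match o with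
  | none => decide (ρ = 1)
  | some (_, none) => true
  | some (a, some _) => decide ((ρ = 3 ∧ a ≠ 2) ∨ (ρ = 2 ∧ a = 2))

/-- the conditions of a cluster on a component with role `ρ` -/
noncomputable def roleL (c : ι → κ) (T : Finset κ) (ρ : Fin 4) (P : (ι → ℂ) × (ι → ℂ)) :
    MvPolynomial ι ℂ →ₗ[ℂ] (Option (Fin 3 × Option ι) → ℂ) :=
  LinearMap.pi fun o => if used ρ o then roleF c T P o else 0

/-- the same on the polynomials of multidegree `d` -/
noncomputable def roleS (c : ι → κ) (T : Finset κ) (d : κ → ℕ) (ρ : Fin 4)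
    (P : (ι → ℂ) × (ι → ℂ)) :
    ↥(Sec c Finset.univ d) →ₗ[ℂ] (Option (Fin 3 × Option ι) → ℂ) :=
  roleL c T ρ P ∘ₗ (Sec c Finset.univ d).subtype

/-- the number of conditions of a cluster on a component with role `ρ`; `D = Dk c univ d`. -/
def rk (D : ℕ) (ρ : Fin 4) : ℕ := if ρ = 3 then 2 * D else if ρ = 2 then D + 2 else
  if ρ = 1 then 4 else 3

/-- role of the component `v` -/
def roleOf {C : Type} [DecidableEq C] (src tgt host v : C) : Fin 4 :=
  if v = src then 3 else if v = tgt then 1 else if v = host then 2 else 0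

/-- The conditions on one component: `L` = general points (all simple, double if `dbl`), `Γ` =
clusters, with the role of the component with respect to each of them. -/
noncomputable def compL (c : ι → κ) (T : Finset κ) (d : κ → ℕ) {L Γ : Type} (dbl : L → Bool)
    (role : Γ → Fin 4) (Z : (L → ι → ℂ) × (Γ → (ι → ℂ) × (ι → ℂ))) :
    ↥(Sec c Finset.univ d) →ₗ[ℂ] (((L × Option ι) ⊕ (Γ × Option (Fin 3 × Option ι))) → ℂ) :=
  (LinearMap.pi fun w => match w with
    | Sum.inl lo => if lo.2 = none ∨ dbl lo.1 = true then fnl (Z.1 lo.1) lo.2 else 0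
    | Sum.inr go => if used (role go.1) go.2 then roleF c T (Z.2 go.1) go.2 else 0) ∘ₗ
    (Sec c Finset.univ d).subtype

theorem mem_ker_compL (c : ι → κ) (T : Finset κ) (d : κ → ℕ) {L Γ : Type} (dbl : L → Bool)
    (role : Γ → Fin 4) (Z : (L → ι → ℂ) × (Γ → (ι → ℂ) × (ι → ℂ)))
    (f : ↥(Sec c Finset.univ d)) :
    f ∈ LinearMap.ker (compL c T d dbl role Z) ↔
      (∀ l, eval (Z.1 l) (f : MvPolynomial ι ℂ) = 0) ∧
      (∀ l, dbl l = true → ∀ i, eval (Z.1 l) (pderiv i (f : MvPolynomial ι ℂ)) = 0) ∧
      ∀ γ, roleS c T d (role γ) (Z.2 γ) f = 0 := by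
  rw [LinearMap.mem_ker]
  constructor
  · intro h
    refine ⟨fun l => ?_, fun l hl i => ?_, fun γ => ?_⟩
    · have := congrFun h (Sum.inl (l, none))
      simpa [compL] using this
    · have := congrFun h (Sum.inl (l, some i))
      simpa [compL, hl] using this
    · funext o
      have := congrFun h (Sum.inr (γ, o))
      simpa [compL, roleS, roleL] using this
  · rintro ⟨h1, h2, h3⟩
    funext w
    rcases w with ⟨l, o⟩ | ⟨γ, o⟩
    · rcases o with _ | i
      · simpa [compL] using h1 l
      · by_cases hl : dbl l = true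
        · simpa [compL, hl] using h2 l hl i
        · simp [compL, hl]
    · have := congrFun (h3 γ) o
      simpa [compL, roleS, roleL] using this

/-- the point with coordinates `u` in colour `j` and `y` in the other colours -/
def lft (c : ι → κ) (j : κ) (u y : ι → ℂ) : ι → ℂ := fun i => if c i = j then u i else y i

/-- The points on the product: the general point `l` lies in the slice `e_{comp l}`; the three
points of the cluster `γ` lie in the slices `e_{src} + e_{tgt}`, `e_{src}`, `e_{host}`. -/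
noncomputable def XP (c : ι → κ) (T : Finset κ) (j : κ) {L Γ : Type} (comp : L → ι)
    (src tgt host : Γ → ι) (Z : (L → ι → ℂ) × (Γ → (ι → ℂ) × (ι → ℂ))) (w : L ⊕ (Γ × Fin 3)) :
    ι → ℂ :=
  match w with
  | Sum.inl l => lft c j (Pi.single (comp l) 1) (Z.1 l)
  | Sum.inr ga => lft c j
      (if ga.2 = 0 then Pi.single (src ga.1) 1 + Pi.single (tgt ga.1) 1
        else if ga.2 = 1 then Pi.single (src ga.1) 1 else Pi.single (host ga.1) 1)
      (ptc c T ga.2 (Z.2 ga.1))

end Pool.Agent.SG
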