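import Pool.Agent.helper80.SG.Spec

/-!
# Project sq: (MP_b5a345_ag, a factor of degree one, second version): definitions

Several types of conditions. Paper: /team-store/SQ_NOTES_helper80.md.
-/

set_option autoImplicit false
set_option linter.unusedSectionVars false

namespace Pool.Agent.SG

open MvPolynomial Module Pool.Agent.SV

section Multi

variable {τ E P J : Type} [AddCommGroup E] [Module ℂ E] [AddCommGroup P] [Module ℂ P]

/-- all entries of `Φ` are polynomials along lines of the parameter space -/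
def LinePolyM (Φ : τ → P → E →ₗ[ℂ] (J → ℂ)) : Prop :=
  ∀ (t : τ) (x y : P) (v : E) (j : J), PolyFun (fun z : ℂ => Φ t (x + z • (y - x)) v j)

/-- the conditions of type `t` at the points `x t i`, `i ∈ S t`, for all types `t` -/
def KerS (Φ : τ → P → E →ₗ[ℂ] (J → ℂ)) (S : τ → Finset ℕ) (x : τ → ℕ → P) : Submodule ℂ E :=
  ⨅ t, ⨅ i ∈ S t, LinearMap.ker (Φ t (x t i))

theorem mem_KerS {Φ : τ → P → E →ₗ[ℂ] (J → ℂ)} {S : τ → Finset ℕ} {x : τ → ℕ → P} {v : E} :
    v ∈ KerS Φ S x ↔ ∀ t, ∀ i ∈ S t, Φ t (x t i) v = 0 := by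
  simp [KerS, Submodule.mem_iInf]

/-- minimal dimension for `a t` points of type `t` -/
noncomputable def dmM (Φ : τ → P → E →ₗ[ℂ] (J → ℂ)) (a : τ → ℕ) : ℕ :=
  sInf {k | ∃ x : τ → ℕ → P, finrank ℂ (KerS Φ (fun t => Finset.range (a t)) x) = k}

/-- rank of the conditions of type `o` at a general point on the general kernel -/
noncomputable def ccM [DecidableEq τ] (Φ : τ → P → E →ₗ[ℂ] (J → ℂ)) (o : τ) (a : τ → ℕ) : ℕ :=
  dmM Φ a - dmM Φ (a + Pi.single o 1)

theorem dmM_le (Φ : τ → P → E →ₗ[ℂ] (J → ℂ)) (a : τ → ℕ) (x : τ → ℕ → P) :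
    dmM Φ a ≤ finrank ℂ (KerS Φ (fun t => Finset.range (a t)) x) :=
  Nat.sInf_le ⟨x, rfl⟩

theorem exists_dmM (Φ : τ → P → E →ₗ[ℂ] (J → ℂ)) (a : τ → ℕ) :
    ∃ x : τ → ℕ → P, finrank ℂ (KerS Φ (fun t => Finset.range (a t)) x) = dmM Φ a :=
  Nat.sInf_mem (s := {k | ∃ x : τ → ℕ → P,
    finrank ℂ (KerS Φ (fun t => Finset.range (a t)) x) = k}) ⟨_, fun _ _ => 0, rfl⟩

/-- all subconfigurations with indices `< n` have minimal dimension -/
def UniM (Φ : τ → P → E →ₗ[ℂ] (J → ℂ)) (n : ℕ) (x : τ → ℕ → P) : Prop :=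
  ∀ S : τ → Finset ℕ, (∀ t, S t ⊆ Finset.range n) →
    finrank ℂ (KerS Φ S x) = dmM Φ (fun t => (S t).card)

/-- the deformation property for the type `o`; `V f` = `f` is visible. -/
def DefM (Φ : τ → P → E →ₗ[ℂ] (J → ℂ)) (o : τ) (V : E → Prop) : Prop :=
  ∀ f, V f → ∀ (x₀ : P) (l : (J → ℂ) →ₗ[ℂ] ℂ), (∃ g, l (Φ o x₀ g) ≠ 0) →
    ∃ (α : ℂ → P → P) (H : ℂ → E → E),
      (∀ x, α 0 x = x) ∧
      (∀ (t : τ) (x : P) (v : E) (j : J), PolyFun (fun z => Φ t (α z x) v j)) ∧
      (∀ (x : P) (j : J), PolyFun (fun z => Φ o x (H z f) j)) ∧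
      (∀ (t : τ) (x : P) (z : ℂ), Φ t x f = 0 → Φ t (α z x) (H z f) = 0) ∧
      l (Φ o x₀ (H 1 f)) ≠ 0

end Multi

section Five

variable {ι κ : Type} [Fintype ι] [DecidableEq ι] [Fintype κ] [DecidableEq κ]

/-- The functionals of the five types of conditions (indices of `roleF`: `none` = target
functional, `some (a, none)` = value, `some (a, some i)` = derivative at the `a`-th point of the
cluster). Type `none`: double point at the point `0`. Types `some ρ`: role `ρ` (`3` source: double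
points at `0`, `1`; `2` host: values at `0`, `1`, double point at `2`; `1` target: values at `0`,
`1`, `2` and the target functional; `0`: values at `0`, `1`, `2`). -/
def used5 (t : Option (Fin 4)) (o : Option (Fin 3 × Option ι)) : Bool :=
  match t with
  | none => match o with
    | none => false
    | some (_, none) => false
    | some (a, some _) => decide (a = 0)
  | some ρ => match o with
    | none => decide (ρ = 1)
    | some (a, none) => decide (ρ = 0 ∨ ρ = 1 ∨ (ρ = 2 ∧ a ≠ 2))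
    | some (a, some _) => decide ((ρ = 3 ∧ a ≠ 2) ∨ (ρ = 2 ∧ a = 2))

/-- the five types of conditions on the polynomials of multidegree `d` -/
noncomputable def Phi5 (c : ι → κ) (T : Finset κ) (d : κ → ℕ) (t : Option (Fin 4))
    (P : (ι → ℂ) × (ι → ℂ)) :
    ↥(Sec c Finset.univ d) →ₗ[ℂ] (Option (Fin 3 × Option ι) → ℂ) :=
  (LinearMap.pi fun o => if used5 t o then roleF c T P o else 0) ∘ₗ (Sec c Finset.univ d).subtype

theorem Phi5_apply (c : ι → κ) (T : Finset κ) (d : κ → ℕ) (t : Option (Fin 4))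
    (P : (ι → ℂ) × (ι → ℂ)) (f : ↥(Sec c Finset.univ d)) (o : Option (Fin 3 × Option ι)) :
    Phi5 c T d t P f o = if used5 t o = true then roleF c T P o (f : MvPolynomial ι ℂ) else 0 := by
  unfold Phi5
  by_cases h : used5 t o = true
  · simp [h]
  · simp [h]

/-- number of conditions of each type; `D = Dk c univ d` -/
def rk5 (D : ℕ) (t : Option (Fin 4)) : ℕ :=
  match t with
  | none => D
  | some ρ => rk D ρ

/-- the part of the number of conditions which comes from sources and hosts -/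
def rkb (D : ℕ) (ρ : Fin 4) : ℕ := if ρ = 3 then 2 * D else if ρ = 2 then D + 2 else 0

end Five

end Pool.Agent.SG
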