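import Pool.Agent.helper80.SG.Defs

/-!
# Project sg: (MP_b5a345_ag, a factor of degree one: Segre varieties): specification

Paper: /team-store/SG_NOTES_helper80.md. One statement `XX_stmt` per module, complete proof in the
docstring. uses: names the statements that may be taken as hypotheses (statements of
`Pool/Agent/helper80/SV/Spec.lean` are PROVED: they may be imported from
`Pool.Agent.helper80.SV.Core`, e.g. `EUL`, `HOM`, `CHN`, `HPT'`, `HON'`, `SPN`, `PLY`, `T1`, `GAL`,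
`GPB`, `GKR'`, `UG'`, `BCA'`, `MON'`, `RKB`, `RKU'`, `RKL'`, `ZER`, `VIS'`, `ONE'`, `SMP`, `DIM`,
`MHS`, `ALR'`; or taken as hypotheses).
-/

set_option autoImplicit false
set_option linter.unusedSectionVars false

namespace Pool.Agent.SG

open MvPolynomial Module Pool.Agent.SV

/-! ## Part A: the two types of conditions (double points, clusters) -/

/-- LPC (short; uses: SV PLY). PROOF: `PhiC_apply`; `ptc c T a (P₀ + t (P₁ - P₀))` is polynomial in
`t` in every coordinate; PLY (first part). -/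
def LPC_stmt : Prop :=
  ∀ {ι κ : Type} [Fintype ι] [DecidableEq ι] [Fintype κ] [DecidableEq κ] (c : ι → κ)
    (T : Finset κ) (d : κ → ℕ), LinePoly (PhiC c T d)

/-- DFC (medium; uses: SV PLY, HOM, HSB, HPT, HON, SPN, as in the proof of SV DFM, see
`Pool/Agent/helper73/SV/DFM.lean`). PROOF. Given `f ≠ 0`, `P₀ = (x₀, x₀')`, `l` and `g` with
`l (PhiC false P₀ g) ≠ 0`. Choose `w` with `eval w f ≠ 0` (`MvPolynomial.funext`). The functional
`μ = ∑_{a, i} l(e_{a,i}) • (eval (ptc a P₀) ∘ pderiv i)` on polynomials does not kill `g`, so by SPN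
(`A = univ`) there is `L` with `μ (Lprod c univ d L) ≠ 0`. Put
`α t (x, x') = (hpt c univ L w t x, hpt c univ L w t x')`,
`H t f' = ⟨bind₁ (hsub c univ L w t) f', HSB⟩`. `hpt c univ L w t` acts linearly on the coordinates of
each colour (`Lval L x k` only involves the coordinates of colour `k` and is linear in `x`), so
`ptc c T a (α t P) = hpt c univ L w t (ptc c T a P)`. The five conditions: HPT (`t = 0`), PLY,
coefficients polynomial in `t` (as in DFM), HPT at each of the three points (`cut univ x = x`), HON at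
the three points: `PhiC false P₀ (H 1 f) = eval w f • PhiC false P₀ (Lprod)`. -/
def DFC_stmt : Prop :=
  ∀ {ι κ : Type} [Fintype ι] [DecidableEq ι] [Fintype κ] [DecidableEq κ] (c : ι → κ)
    (T : Finset κ) (d : κ → ℕ),
    Deformable (PhiC c T d) (fun f : ↥(Sec c Finset.univ d) => f ≠ 0)

/-- VSC (short; uses: SV VIS). PROOF: VIS (`A = B = univ`) gives `p` with `gradL univ p f ≠ 0`; take
`P = (p, 0)`, slot `a = 0`. -/
def VSC_stmt : Prop :=
  ∀ {ι κ : Type} [Fintype ι] [DecidableEq ι] [Fintype κ] [DecidableEq κ] (c : ι → κ)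
    (T : Finset κ) (d : κ → ℕ), (∃ k, 1 ≤ d k) → ∀ f : ↥(Sec c Finset.univ d), f ≠ 0 →
    ∃ P, PhiC c T d false P f ≠ 0

/-- RKC (short; uses: SV RKU). PROOF: the slot `a` of `PhiC` is the gradient at `ptc a P`, of rank
`≤ Dk c univ d` by RKU (`Phi1`, `A = univ`, `cut univ x = x`); the kernel of `PhiC false P` is the
intersection of three kernels of codimension `≤ Dk`. -/
def RKC_stmt : Prop :=
  ∀ {ι κ : Type} [Fintype ι] [DecidableEq ι] [Fintype κ] [DecidableEq κ] (c : ι → κ)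
    (T : Finset κ) (d : κ → ℕ), (∀ k, ∃ i, c i = k) →
    (∀ P, finrank ℂ (LinearMap.range (PhiC c T d true P)) ≤ Dk c Finset.univ d) ∧
    ∀ τ P, finrank ℂ (LinearMap.range (PhiC c T d τ P)) ≤ 3 * Dk c Finset.univ d

/-- DMC (short). PROOF: the kernel of `PhiC true P` is the kernel of the gradient at `P.1`, i.e. of
`Phi1 c univ d false P.1`; so both sets of dimensions agree. (Compare SV PH0.) -/
def DMC_stmt : Prop :=
  ∀ {ι κ : Type} [Fintype ι] [DecidableEq ι] [Fintype κ] [DecidableEq κ] (c : ι → κ)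
    (T : Finset κ) (d : κ → ℕ) (r : ℕ),
    dmin (PhiC c T d) r 0 = dmin (Phi1 c Finset.univ d) 0 r

/-- ABW (LONG, abstract; uses: SV BCA, ZER, MON, RKB, UG). THE WINDOW LEMMA FOR TWO TYPES: `g`
conditions of type `false` after `r` of type `true` are independent. Compare the second half of the
proof of SV PTH (`Pool/Agent/helper28/SV/PTH.lean`).
PROOF. Let `N = cc Φ 0 0`. By BCA (with a uniform configuration of size `2a + 2b + 1`, UG) and ZER:
(*) if `cc (a+1) b = cc a b = cc a (b+1) < N`, or if `cc a b = 0`, then `dmin a b = 0` (on a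
configuration with `finrank (Ker Φ x y) = dmin a b` no non zero element is visible, i.e. the kernel is
`0`). Claim: `cc r b = N` for all `b < g`. Suppose `cc r b₀ ≠ N`, `b₀ < g`, so `cc r b₀ < N` (MON).
Starting from `(r, b₀)` increase one of the two numbers by one as long as `cc > 0` and `dmin > 0`:
by MON and (*) we can choose which one so that `cc` drops by at least one. After `i ≤ N - 1` steps we
reach `(a, b)` with `a + b = r + b₀ + i` and `cc a b = 0` or `dmin a b = 0`, so `dmin a b = 0`. But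
`dmin r 0 ≥ finrank E - r D` (RKB) and each further condition (of any type) lowers `dmin` by at most
`B`: `dmin a b ≥ finrank E - r D - (b₀ + i) B > 0`, because `b₀ + i ≤ g - 1 + N - 1`, `N ≤ B`, `B ≥ 1`
(`N > 0`), and `r D + (g + B) B ≤ finrank E`. Contradiction. Summing
`cc r b = dmin r b - dmin r (b+1) = N` (`dmin` non increasing, MON) over `b < g` gives the claim. -/
def ABW_stmt : Prop :=
  ∀ {E P J : Type} [AddCommGroup E] [Module ℂ E] [Module.Finite ℂ E] [AddCommGroup P]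
    [Module ℂ P] [Finite J] (Φ : Bool → P → E →ₗ[ℂ] (J → ℂ)), LinePoly Φ →
    Deformable Φ (fun f : E => f ≠ 0) → (∀ f : E, f ≠ 0 → ∃ p, Φ false p f ≠ 0) →
    ∀ D B r g : ℕ, (∀ x, finrank ℂ (LinearMap.range (Φ true x)) ≤ D) →
      (∀ τ x, finrank ℂ (LinearMap.range (Φ τ x)) ≤ B) → r * D + (g + B) * B ≤ finrank ℂ E →
      dmin Φ r g + g * cc Φ 0 0 = dmin Φ r 0

/-- EXT (medium; linear algebra). Passing to fewer conditions.
PROOF. The map `K → ∏_γ range (B γ)` has image of dimension `finrank K - finrank (K ⊓ ⨅ ker (B γ)) ≥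
|Γ| N ≥ ∑ finrank (range (B γ))`, so it is surjective. `C γ` factors over `B γ`, so
`K → ∏_γ range (C γ)` is surjective as well: given `C γ (e γ)`, choose `k ∈ K` with
`B γ k = B γ (e γ)` for all `γ`; then `k - e γ ∈ ker (B γ) ≤ ker (C γ)`. Rank-nullity. -/
def EXT_stmt : Prop :=
  ∀ {E Y Z Γ : Type} [AddCommGroup E] [Module ℂ E] [Module.Finite ℂ E] [AddCommGroup Y]
    [Module ℂ Y] [AddCommGroup Z] [Module ℂ Z] [Fintype Γ] (K : Submodule ℂ E)
    (B : Γ → E →ₗ[ℂ] Y) (C : Γ → E →ₗ[ℂ] Z) (N : ℕ),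
    (∀ γ, finrank ℂ (LinearMap.range (B γ)) ≤ N) →
    finrank ℂ ↥(K ⊓ ⨅ γ, LinearMap.ker (B γ)) + Fintype.card Γ * N ≤ finrank ℂ K →
    (∀ γ, LinearMap.ker (B γ) ≤ LinearMap.ker (C γ)) →
    finrank ℂ ↥(K ⊓ ⨅ γ, LinearMap.ker (C γ)) + ∑ γ, finrank ℂ (LinearMap.range (C γ)) ≤
      finrank ℂ K

/-- KIM (short; uses: SV EUL). PROOF: if `f` is singular at the three points, all derivatives there
vanish and, by EUL (a colour `k` with `d k ≥ 1`), also the values; `tgtL` is a combination of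
derivatives at `P.1 = ptc 0 P`. -/
def KIM_stmt : Prop :=
  ∀ {ι κ : Type} [Fintype ι] [DecidableEq ι] [Fintype κ] [DecidableEq κ] (c : ι → κ)
    (T : Finset κ) (d : κ → ℕ), (∃ k, 1 ≤ d k) → ∀ ρ P,
    LinearMap.ker (PhiC c T d false P) ≤ LinearMap.ker (roleS c T d ρ P)

/-- RLS (medium; compare SV RKL, `Pool/Agent/helper72/SV/RKL.lean`). Rank of the source conditions.
Notation for RLS, RLH, RLT, RLN: choose `o k` of colour `k` for every `k`, and `o' k ≠ o k` of colour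
`k` for `k ∈ T`. `e_o` = indicator function of the `o k`. Monomials of multidegree `d`:
`g₀ = ∏_k X_{o k}^{d k}`, `g_i = X_i X_{o (c i)}^{d (c i) - 1} ∏_{k ≠ c i} X_{o k}^{d k}`
(`d (c i) ≥ 1`, `i ≠ o (c i)`).
PROOF. `P = (e_o, x')`, `x' i = 1` if `i = o' (c i)`, `c i ∈ T`, and `0` otherwise. `ptc 0 = e_o`,
`ptc 1 = e_{o''}` with `o'' = o'` on `T`, `o` off `T`. The gradients of `g₀, g_i` at `ptc 0` are
linearly independent (`Dk` vectors, as in RKL), and the gradients of `g₀, g_i` at `ptc 1` vanish: the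
monomial contains at least two factors (with multiplicity) among the `X_{o k}`, `k ∈ T` (the total
degree in the colours of `T` is `3`), whose coordinates at `ptc 1` are `0`. In the same way for the
monomials `g'₀, g'_i` formed with `o''`: gradients at `ptc 1` independent, at `ptc 0` zero. So these
`2 Dk` monomials have linearly independent images. -/
def RLS_stmt : Prop :=
  ∀ {ι κ : Type} [Fintype ι] [DecidableEq ι] [Fintype κ] [DecidableEq κ] (c : ι → κ)
    (T : Finset κ) (d : κ → ℕ), (∀ k, ∃ i, c i = k) → (∀ k ∈ T, 1 ≤ d k) →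
    (∀ k ∈ T, ∃ i i', i ≠ i' ∧ c i = k ∧ c i' = k) → ∑ k ∈ T, d k = 3 →
    ∃ P, 2 * Dk c Finset.univ d ≤ finrank ℂ (LinearMap.range (roleS c T d 3 P))

/-- RLH (medium). Rank of the host conditions (notation of RLS).
PROOF. `x = e_{o''}`, `x' = e_o - e_{o''}` on `T` (`0` elsewhere): `ptc 0 = e_{o''}`,
`ptc 1 = (e_o - e_{o''})` on `T`, `e_o` off `T`, `ptc 2 = e_o`. `m₂ = g'₀ = ∏_k X_{o'' k}^{d k}`,
`m₁ = X_{o k₁} X_{o' k₁}^{d k₁ - 1} ∏_{k ≠ k₁} X_{o'' k}^{d k}` (some `k₁ ∈ T`). The gradients at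
`ptc 2 = e_o` of `m₁, m₂` vanish (they contain `≥ 2` factors `X_{o' k}`), those of the `Dk` monomials
`g₀, g_i` are independent; the values of `m₁, m₂` at `ptc 0` are `0, 1`, at `ptc 1` they are
`(-1)^2 = 1` and `(-1)^3 = -1`. So `g₀, g_i, m₁, m₂` have independent images. -/
def RLH_stmt : Prop :=
  ∀ {ι κ : Type} [Fintype ι] [DecidableEq ι] [Fintype κ] [DecidableEq κ] (c : ι → κ)
    (T : Finset κ) (d : κ → ℕ), (∀ k, ∃ i, c i = k) → (∀ k ∈ T, 1 ≤ d k) →
    (∀ k ∈ T, ∃ i i', i ≠ i' ∧ c i = k ∧ c i' = k) → ∑ k ∈ T, d k = 3 →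
    ∃ P, Dk c Finset.univ d + 2 ≤ finrank ℂ (LinearMap.range (roleS c T d 2 P))

/-- RLT (medium). Rank of the target conditions and of the conditions of role `0` (notation of RLS).
PROOF. `P` as in RLS. `k₁ ∈ T`. `m_A = X_{o' k₁} X_{o k₁}^{d k₁ - 1} ∏_{k ≠ k₁} X_{o k}^{d k}` (one
factor `o'`), `m_B = X_{o k₁} X_{o' k₁}^{d k₁ - 1} ∏_{k ≠ k₁} X_{o'' k}^{d k}` (two factors `o'`, one
factor `o` in `T`), `m₃ = ∏_k X_{o'' k}^{d k}`. (value at `ptc 0`, at `ptc 1`, at `ptc 2`, `tgtL`):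
`g₀`: (1,0,1,0); `m₃`: (0,1,1,0); `m_A`: (0,0,1,1); `m_B`: (0,0,1,0). (`tgtL f =
∑_{k ∈ T} ∂_{o' k} f (e_o)`.) These four rows are linearly independent; for role `0` use the first
three columns and `g₀, m₃, m_B`. -/
def RLT_stmt : Prop :=
  ∀ {ι κ : Type} [Fintype ι] [DecidableEq ι] [Fintype κ] [DecidableEq κ] (c : ι → κ)
    (T : Finset κ) (d : κ → ℕ), (∀ k, ∃ i, c i = k) → (∀ k ∈ T, 1 ≤ d k) →
    (∀ k ∈ T, ∃ i i', i ≠ i' ∧ c i = k ∧ c i' = k) → ∑ k ∈ T, d k = 3 →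
    (∃ P, 4 ≤ finrank ℂ (LinearMap.range (roleS c T d 1 P))) ∧
    ∃ P, 3 ≤ finrank ℂ (LinearMap.range (roleS c T d 0 P))

/-- CPL (short; uses: SV PLY). PROOF: the entries are sums of products of coordinates of `Z` and of
values of polynomials at points depending linearly on `Z`. -/
def CPL_stmt : Prop :=
  ∀ {ι κ : Type} [Fintype ι] [DecidableEq ι] [Fintype κ] [DecidableEq κ] (c : ι → κ)
    (T : Finset κ) (d : κ → ℕ) {L Γ : Type} (dbl : L → Bool) (role : Γ → Fin 4)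
    (Z₀ Z₁ : (L → ι → ℂ) × (Γ → (ι → ℂ) × (ι → ℂ))) (v : ↥(Sec c Finset.univ d))
    (w : (L × Option ι) ⊕ (Γ × Option (Fin 3 × Option ι))),
    PolyFun (fun t : ℂ => compL c T d dbl role (Z₀ + t • (Z₁ - Z₀)) v w)

/-- CM1 (LONG; uses: LPC, DFC, VSC, RKC, DMC, ABW, EXT, KIM, RLS, RLH, RLT, CPL, SV ONE, GKR, GAL,
GPB, RKB). One component without the simple points.
PROOF. `E = Sec c univ d`, `D = Dk c univ d`, `Φ = PhiC c T d`, `N = cc Φ 0 0`. By ABW
(`B = 3 D`, RKC), DMC and ONE (its window `(b-1) D + D(D-1)/2 < finrank E` follows from the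
hypothesis): `dmin Φ b g + g N = dmin Φ b 0 = finrank E - b D`. On the space of configurations
`(x, y) ∈ (Fin b → P) × (Fin g → P)` the following properties are generic (GKR with GPB: each holds
somewhere by `exists_dmin` or by RLS, RLH, RLT, the maps are polynomial on lines by LPC, CPL):
`finrank (Ker Φ x y) ≤ dmin Φ b g`; `finrank (Ker Φ x ∅) ≤ dmin Φ b 0`, i.e. `K = ⨅ ker (Φ true (x i))`
has dimension `≤ finrank E - b D`; for every `γ`: `finrank (ker (roleS (role γ) (y γ))) ≤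
finrank E - rk D (role γ)`. GAL: choose `(x, y)` with all of them. EXT with `K`,
`B γ = Φ false (y γ)` (`finrank (range (B γ)) ≤ N`: `finrank (ker) ≥ dmin Φ 0 1`,
`dmin Φ 0 0 = finrank E`), `C γ = roleS c T d (role γ) (y γ)` (KIM);
`finrank K ≥ dmin Φ b 0 = dmin Φ b g + g N ≥ finrank (K ⊓ ⨅ ker (B γ)) + g N`. -/
def CM1_stmt : Prop :=
  ∀ {ι κ : Type} [Fintype ι] [DecidableEq ι] [Fintype κ] [DecidableEq κ] (c : ι → κ)
    (T : Finset κ) (d : κ → ℕ), (∀ k, ∃ i, c i = k) → (∀ k ∈ T, 1 ≤ d k) →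
    (∀ k ∈ T, ∃ i i', i ≠ i' ∧ c i = k ∧ c i' = k) → ∑ k ∈ T, d k = 3 →
    ∀ (b g : ℕ) (role : Fin g → Fin 4),
    b * Dk c Finset.univ d + (g + 3 * Dk c Finset.univ d) * (3 * Dk c Finset.univ d) ≤
      finrank ℂ (Sec c Finset.univ d) →
    ∃ (x : Fin b → (ι → ℂ) × (ι → ℂ)) (y : Fin g → (ι → ℂ) × (ι → ℂ)),
      finrank ℂ ↥((⨅ i, LinearMap.ker (PhiC c T d true (x i))) ⊓
        ⨅ γ, LinearMap.ker (roleS c T d (role γ) (y γ))) ≤
      finrank ℂ (Sec c Finset.univ d) - b * Dk c Finset.univ d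
        - ∑ γ, rk (Dk c Finset.univ d) (role γ)

/-- CMP (medium; uses: CM1, CPL, SV SMP, GKR, EUL). ONE COMPONENT: the kernel is small for a generic
configuration.
PROOF. By GKR (polynomial on lines: CPL) it suffices to find one `Z`. Let `b` be the number of `l`
with `dbl l`; identify them with `Fin b`, the clusters with `Fin g` (`g = |Γ|`) and the other `l` with
`Fin u`. CM1 gives `(x, y)`; let `Q` = the space of CM1 as a space of polynomials. SMP (`A = univ`,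
`cut univ q = q`; a polynomial vanishing everywhere is `0`) gives `u` points `q` with
`finrank (Q ⊓ ⨅ ker (evL (q j))) ≤ finrank Q - u`. Put `Z.1 l = (x i).1` for the doubled `l`,
`Z.1 l = q j` for the others, `Z.2 γ = y γ`. By `mem_ker_compL` an element of the kernel of `compL`
lies in `Q` and vanishes at the `q j`. -/
def CMP_stmt : Prop :=
  ∀ {ι κ : Type} [Fintype ι] [DecidableEq ι] [Fintype κ] [DecidableEq κ] (c : ι → κ)
    (T : Finset κ) (d : κ → ℕ), (∀ k, ∃ i, c i = k) → (∀ k ∈ T, 1 ≤ d k) →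
    (∀ k ∈ T, ∃ i i', i ≠ i' ∧ c i = k ∧ c i' = k) → ∑ k ∈ T, d k = 3 →
    ∀ {L Γ : Type} [Fintype L] [Fintype Γ] (dbl : L → Bool) (role : Γ → Fin 4),
    (Finset.univ.filter (fun l => dbl l = true)).card * Dk c Finset.univ d
      + (Fintype.card Γ + 3 * Dk c Finset.univ d) * (3 * Dk c Finset.univ d) ≤
      finrank ℂ (Sec c Finset.univ d) →
    Gen (fun Z : (L → ι → ℂ) × (Γ → (ι → ℂ) × (ι → ℂ)) =>
      finrank ℂ (LinearMap.ker (compL c T d dbl role Z)) ≤
        finrank ℂ (Sec c Finset.univ d)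
          - (Finset.univ.filter (fun l => dbl l = true)).card * Dk c Finset.univ d
          - ∑ γ, rk (Dk c Finset.univ d) (role γ)
          - (Finset.univ.filter (fun l => dbl l = false)).card)

/-! ## Part B: the assembly -/

/-- ID3 (medium). The cluster identity: the total degree of `f` in the colours of `T` is `3`.
PROOF. `q(t) = f (x + t x' on the colours of T, x elsewhere)` is a polynomial of degree `≤ 3` in `t`
with `q(0) = f (ptc 0)`, `q(1) = f (ptc 2)`, coefficient of `t³` = `f (ptc 1)`, of `t` =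
`∑ x'_i ∂_i f (ptc 0)`, of `t²` = `∑ x_i ∂_i f (ptc 1)`. Direct proof on monomials: by linearity let
`f = X^m`, `m ∈ Mon c univ d`; the monomial has exactly three variables (with multiplicity) `i₁, i₂,
i₃` with colours in `T`; both sides are the common factor `∏_{c i ∉ T} x_i^{m i}` times
`(x+x')_{i₁} (x+x')_{i₂} (x+x')_{i₃}` = sum of the eight products. (Or: prove by induction on the
monomial / product rule that for every `f` whose `T`-degree is `n` the four coefficients are as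
stated.) -/
def ID3_stmt : Prop :=
  ∀ {ι κ : Type} [Fintype ι] [DecidableEq ι] [Fintype κ] [DecidableEq κ] (c : ι → κ)
    (T : Finset κ) (d : κ → ℕ), ∑ k ∈ T, d k = 3 → ∀ f ∈ Sec c Finset.univ d,
    ∀ P : (ι → ℂ) × (ι → ℂ),
    eval (ptc c T 2 P) f = eval (ptc c T 0 P) f + eval (ptc c T 1 P) f
      + ∑ i ∈ Finset.univ.filter (fun i => c i ∈ T), P.2 i * eval (ptc c T 0 P) (pderiv i f)
      + ∑ i ∈ Finset.univ.filter (fun i => c i ∈ T), P.1 i * eval (ptc c T 1 P) (pderiv i f)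

/-- DEC (medium; uses: SV EUL, HOM). Decomposition of `F` of degree one in the colour `j`: components
`f_v = ∂_v F`, `c v = j`.
PROOF. (1) HOM. (2) EUL-like identity as polynomials: every monomial of `F` contains exactly one
variable of colour `j`. (3) `f ∈ Sec c univ (low d j)` has degree `0` in colour `j`: no monomial
contains a variable of colour `j`. (4) From (2): `∂_i F = ∑_v X_v ∂_i f_v` for `c i ≠ j`. -/
def DEC_stmt : Prop :=
  ∀ {ι κ : Type} [Fintype ι] [DecidableEq ι] [Fintype κ] [DecidableEq κ] (c : ι → κ)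
    (d : κ → ℕ) (j : κ), d j = 1 →
    (∀ F ∈ Sec c Finset.univ d, (∀ v, c v = j → pderiv v F ∈ Sec c Finset.univ (low d j)) ∧
      F = ∑ v ∈ Finset.univ.filter (fun v => c v = j), X v * pderiv v F ∧
      (∀ i, c i ≠ j → ∀ y : ι → ℂ, eval y (pderiv i F) =
        ∑ v ∈ Finset.univ.filter (fun v => c v = j), y v * eval y (pderiv i (pderiv v F)))) ∧
    (∀ f ∈ Sec c Finset.univ (low d j), (∀ (u y : ι → ℂ), eval (lft c j u y) f = eval y f) ∧
      (∀ i, c i = j → pderiv i f = 0) ∧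
      ∀ i (u y : ι → ℂ), eval (lft c j u y) (pderiv i f) = eval y (pderiv i f))

/-- ASM (LONG; uses: ID3, DEC). THE ASSEMBLY. `A` = set of source components.
PROOF. Let `F ∈ Sng c d (XP .. ∘ E)`, i.e. singular at all points `XP w`. `f_v = ∂_v F` (`c v = j`).
By DEC: at every point all `f_v` vanish (derivative in the direction `v`), and
`∑_v u_v ∂_i f_v (y) = 0` for all `i` (for `c i = j` because `∂_i f_v = 0`), `(u, y)` the point. So:
(general point `l`) `∂_i f_{comp l}(Z.1 l) = 0`; (cluster) `∂_i (f_src + f_tgt)(ptc 0) = 0`,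
`∂_i f_src (ptc 1) = 0`, `∂_i f_host (ptc 2) = 0`.
Let `c v = j`, `v ∉ A`. Then `f_v ∈ ker (compL .. v)`: by `mem_ker_compL`; role `3` does not occur
(`src γ ∈ A`); role `2`: `v = host`; role `1`: `v = tgt γ`, by ID3 for `f_src` (all values and the
derivatives at `ptc 1` vanish) `∑_{c i ∈ T} x'_i ∂_i f_src(ptc 0) = 0`, hence the same for `f_tgt`
(`ptc 0 = P.1`), which is `tgtL f_v = 0`.
The linear map `F ↦ (f_v)_{v ∉ A}` into the product of these kernels is injective: if `f_v = 0` for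
all `v ∉ A` (`c v = j`), let `v ∈ A`. `f_v ∈ ker (compL .. v)`: role `3`: `∂_i f_src(ptc 0) =
- ∂_i f_tgt (ptc 0) = 0` (`tgt γ ∉ A`), role `1` does not occur. This kernel has dimension
`≤ e v = 0`, so `f_v = 0`, and `F = ∑ X_v f_v = 0`. Hence `finrank ≤ ∑_{v ∉ A} e v`. -/
def ASM_stmt : Prop :=
  ∀ {ι κ : Type} [Fintype ι] [DecidableEq ι] [Fintype κ] [DecidableEq κ] (c : ι → κ)
    (T : Finset κ) (d : κ → ℕ) (j : κ), d j = 1 → j ∉ T → ∑ k ∈ T, d k = 3 →
    ∀ {L Γ : Type} [Fintype L] [Fintype Γ] (comp : L → ι) (src tgt host : Γ → ι) (A : Finset ι)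
      (e : ι → ℕ) (Z : (L → ι → ℂ) × (Γ → (ι → ℂ) × (ι → ℂ))),
    (∀ l, c (comp l) = j) → (∀ γ, c (src γ) = j ∧ c (tgt γ) = j ∧ c (host γ) = j) →
    (∀ γ, src γ ∈ A ∧ tgt γ ∉ A ∧ host γ ≠ src γ ∧ host γ ≠ tgt γ) →
    (∀ v, c v = j → finrank ℂ (LinearMap.ker (compL c T (low d j) (fun l => decide (comp l = v))
      (fun γ => roleOf (src γ) (tgt γ) (host γ) v) Z)) ≤ e v) →
    (∀ v ∈ A, e v = 0) →
    ∀ (r : ℕ) (E : Fin r ≃ L ⊕ (Γ × Fin 3)),
      finrank ℂ ↥(Sng c d (fun l => XP c T j comp src tgt host Z (E l))) ≤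
        ∑ v ∈ Finset.univ.filter (fun v => c v = j ∧ v ∉ A), e v

/-- TRN (short). Transport. PROOF: `Fin (|α| p) ≃ α × Fin p` (cardinalities), `src` = first
component; `Fin (|α| p)` embeds into `β × Fin q` (cardinalities), `tgt` = first component. -/
def TRN_stmt : Prop :=
  ∀ {α β : Type} [Fintype α] [Fintype β] [DecidableEq α] [DecidableEq β] (p q : ℕ),
    Fintype.card α * p ≤ Fintype.card β * q →
    ∃ (s : Fin (Fintype.card α * p) → α) (t : Fin (Fintype.card α * p) → β),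
      (∀ a, (Finset.univ.filter (fun γ => s γ = a)).card = p) ∧
      ∀ b, (Finset.univ.filter (fun γ => t γ = b)).card ≤ q

/-- HST (short/medium). The hosts. PROOF: identify `C` with `Fin n`, `n ≥ 3`, `next a = a + 1`
(cyclic), so `a`, `next a`, `next (next a)` are distinct. `host γ = next (src γ)` unless this is
`tgt γ`, in which case `host γ = next (next (src γ))`. If `host γ = v` then
`src γ ∈ {v - 1, v - 2}`. -/
def HST_stmt : Prop :=
  ∀ {C : Type} [Fintype C] [DecidableEq C], 3 ≤ Fintype.card C → ∀ (g p : ℕ) (src tgt : Fin g → C),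
    (∀ v, (Finset.univ.filter (fun γ => src γ = v)).card ≤ p) →
    ∃ host : Fin g → C, (∀ γ, host γ ≠ src γ ∧ host γ ≠ tgt γ) ∧
      ∀ v, (Finset.univ.filter (fun γ => host γ = v)).card ≤ 2 * p

/-- CFN (short). PROOF: `Fin (∑ b) ≃ Σ v, Fin (b v)` (cardinalities). -/
def CFN_stmt : Prop :=
  ∀ {C : Type} [Fintype C] [DecidableEq C] (b : C → ℕ),
    ∃ comp : Fin (∑ v, b v) → C, ∀ v, (Finset.univ.filter (fun l => comp l = v)).card = b v

/-- RKS (short). Sum of the numbers of conditions. PROOF: split according to the role. -/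
def RKS_stmt : Prop :=
  ∀ {C : Type} [DecidableEq C] (n g : ℕ) (src tgt host : Fin g → C) (v : C),
    (∀ γ, src γ ≠ tgt γ ∧ host γ ≠ src γ ∧ host γ ≠ tgt γ) →
    ∑ γ, rk (n + 1) (roleOf (src γ) (tgt γ) (host γ) v)
        + (Finset.univ.filter (fun γ => src γ = v)).card =
      3 * g + 2 * n * (Finset.univ.filter (fun γ => src γ = v)).card
        + (Finset.univ.filter (fun γ => tgt γ = v)).card
        + n * (Finset.univ.filter (fun γ => host γ = v)).card

/-- ASN (medium; arithmetic, brute-force checked). `D = m + n + 1`, `σ = s / (m+1)`.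
PROOF. (a) from `s = ⌊(m+1)M / D⌋` or `⌈(m+1)M / D⌉`. `(m+1) σ ≤ s ≤ (m+1) σ + m`. Write
`(T) 3 (m+13) (n+1)² D ≤ 4 m M`.
(b) `(m+1)(σ+1) D ≥ (s+1) D ≥ (m+1) M - (m+n) + D > (m+1) M`, so `σ + 1 > M/D ≥
(3/4)(1+13/m)(n+1)² > (3/4)(n+1)² ≥ 4 (n-1)` (`3 (n+1)² - 16 (n-1) > 0` always).
(c) `(m+1) σ D ≤ s D ≤ (m+1) M + (m+n)`; multiply the claim by `4 (m+1) D`:
`4 (m+1) D (σ+1)(n+1) ≤ 4 (n+1) ((m+1) M + (m+n) + (m+1) D)`, and
`4 (m+1) D M - 4 (n+1)(m+1) M = 4 (m+1) m M ≥ 3 (m+1)(m+13)(n+1)² D`, while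
`4 (g + 3(n+1)) 3 (n+1) ≤ 3 n (m+1)(n+1) + 36 (n+1)²`; so it suffices
`3 (m+1)(m+13)(n+1) D ≥ 4 (m+n) + 4 (m+1) D + (m+1) D (3 n (m+1) + 36 (n+1))`, i.e. (as
`3 (m+13)(n+1) - 3 n (m+1) - 36 (n+1) = 3 (m+1)`) `3 (m+1)² D ≥ 4 (m+1) D + 4 (m+n)`, true for
`m ≥ 2`. -/
def ASN_stmt : Prop :=
  ∀ m n M s : ℕ, 2 ≤ m → 1 ≤ n → 3 * (m + 13) * (n + 1) ^ 2 * (m + n + 1) ≤ 4 * m * M →
    (s = (m + 1) * M / (m + n + 1) ∨ s = ((m + 1) * M + (m + n)) / (m + n + 1)) →
    (s * (m + n + 1) ≤ (m + 1) * M + (m + n)) ∧ ((m + 1) * M ≤ s * (m + n + 1) + (m + n)) ∧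
    4 * n ≤ s / (m + 1) + 4 ∧
    ∀ g : ℕ, 4 * g ≤ n * (m + 1) →
      (s / (m + 1) + 1) * (n + 1) + (g + 3 * (n + 1)) * (3 * (n + 1)) ≤ M

/-- ASG (LONG; combinatorics; uses: ASN, TRN, HST, CFN, RKS). THE DISTRIBUTION OF THE POINTS.
PROOF. `σ = s / (m+1)`, `ν = s % (m+1) ≤ m`, `A₀ ⊆ C` with `|A₀| = ν`, `S v = σ + 1` for `v ∈ A₀`,
`S v = σ` otherwise. `x = M - s - n σ ∈ ℤ`, `δ = (m+1) M - s (m+n+1)`; then `(m+1) x = n ν + δ`.
In all cases the number `b v = |comp⁻¹ v|` will be `S v - 2 own v - hst v` (`own, tg, hst` = numbers of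
`γ` with `src γ = v`, `tgt γ = v`, `host γ = v`), so `∑ b = s - 3 g`, and by RKS
`b (n+1) + ∑ rk + (R - b) = n (S v) + s + tg v - own v` (*). Window: ASN, `b v ≤ σ + 1`.
Case 1: `δ ≥ 0` and (`x ≥ n` or `ν = 0`): `g = 0`, `A = ∅`, `comp` with fibres `S v` (CFN);
`e v = x - n` on `A₀`, `x` off `A₀` (`x ≥ 0`); sum `(m+1) x - n ν = δ`.
Case 2: `δ ≥ 0`, `ν ≥ 1`, `x < n`: then `x ≥ 1`; `p = n - x ≤ n - 1`. `ν p ≤ (m+1-ν) x` as the
difference is `δ`. TRN (`α = A₀`, `β = C ∖ A₀`, `q = x`): `src` with fibres exactly `p` on `A₀`, `tgt`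
with fibres `≤ x` off `A₀`; `g = ν p`, `(m+1) g ≤ n ν (m+1-ν) ≤ n (m+1)²/4`. HST: hosts, fibres
`≤ 2 p`. `b v ≥ σ - 4 (n-1) ≥ 0` (ASN). CFN. `A = A₀`, `e = 0` on `A₀`, `e v = x - tg v` off `A₀`; by
(*) the required inequalities hold; sum `(m+1-ν) x - g = δ`.
Case 3: `δ < 0`, `x ≤ 0`: `g = 0`, `A = ∅`, `e = 0`.
Case 4: `δ < 0`, `x ≥ 1`: then `(m+1) x < n ν`, so `ν ≥ 1`, `x ≤ n - 1`. TRN with `α = C ∖ A₀`,
`p = x`, `β = A₀`, `q = n - x` (`(m+1-ν) x ≤ ν (n-x)`): `tgt` with fibres exactly `x`, `src` with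
fibres `≤ n - x ≤ n - 1`; `(m+1) g = (m+1)(m+1-ν) x ≤ n ν (m+1-ν)`. HST (`p := n - x`), CFN as before.
`A = A₀`, `e = 0`: by (*) `M - .. = x - n + own v ≤ 0` on `A₀`, `x - x = 0` off `A₀`. -/
def ASG_stmt : Prop :=
  ∀ {C : Type} [Fintype C] [DecidableEq C] (m n M s : ℕ), Fintype.card C = m + 1 →
    2 ≤ m → 1 ≤ n → 3 * (m + 13) * (n + 1) ^ 2 * (m + n + 1) ≤ 4 * m * M →
    (s = (m + 1) * M / (m + n + 1) ∨ s = ((m + 1) * M + (m + n)) / (m + n + 1)) →
    ∃ (R g : ℕ) (comp : Fin R → C) (src tgt host : Fin g → C) (A : Finset C) (e : C → ℕ),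
      R + 3 * g = s ∧
      (∀ γ, src γ ∈ A ∧ tgt γ ∉ A ∧ host γ ≠ src γ ∧ host γ ≠ tgt γ) ∧
      (∀ v, (Finset.univ.filter (fun l => comp l = v)).card * (n + 1)
        + (g + 3 * (n + 1)) * (3 * (n + 1)) ≤ M) ∧
      (∀ v, M - (Finset.univ.filter (fun l => comp l = v)).card * (n + 1)
        - ∑ γ, rk (n + 1) (roleOf (src γ) (tgt γ) (host γ) v)
        - (Finset.univ.filter (fun l => comp l ≠ v)).card ≤ e v) ∧
      (∀ v ∈ A, e v = 0) ∧
      ∑ v ∈ Finset.univ.filter (fun v => v ∉ A), e v ≤ (m + 1) * M - s * (m + n + 1)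

/-- SGC (LONG; uses: CMP, ASM, ASG, SV DIM, GAL, MHS). Critical `r` in the coordinates of the
problem. `N = ∑ n i`.
PROOF. `ι = Var n`, `κ = Fin k`, `c = Sigma.fst`, `d₀ = low d j` (`d₀ j = 0`). `m = n j`, `n' = N - n j`,
`M = ∏_{i ≠ j} (n i + d i).choose (n i)`. DIM: `finrank (Sec c univ d₀) = M`
(`multichoose (n j + 1) 0 = 1`), `finrank (MultiHom n d) = (n j + 1) M`; `Dk c univ d₀ = n' + 1`
(`n' ≥ 1` as `T` is non empty and `j ∉ T`). ASG with `C = Fin (n j + 1)`; put `v ↦ ⟨j, v⟩ : Var n`.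
For each `v ∈ C` CMP (`L = Fin R`, `Γ = Fin g`, `dbl l = decide (comp l = v)`,
`role γ = roleOf (src γ) (tgt γ) (host γ) v`) says that the kernel of `compL` has dimension `≤ e v`
for generic `Z`; GAL: one `Z` for all `v`. ASM with `E : Fin r ≃ Fin R ⊕ (Fin g × Fin 3)`
(`R + 3 g = r`) gives the points. -/
def SGC_stmt : Prop :=
  ∀ (k : ℕ) (n d : Fin k → ℕ), (∀ i, 1 ≤ n i) → (∀ i, 1 ≤ d i) → ∀ j : Fin k, d j = 1 → 2 ≤ n j →
    ∀ T : Finset (Fin k), j ∉ T → ∑ i ∈ T, d i = 3 →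
    3 * (n j + 13) * (∑ i, n i - n j + 1) ^ 2 * (∑ i, n i + 1) ≤
      4 * n j * ∏ i ∈ Finset.univ.erase j, (n i + d i).choose (n i) →
    ∀ r : ℕ, (r = finrank ℂ (MultiHom n d) / (∑ i, n i + 1) ∨
      r = (finrank ℂ (MultiHom n d) + ∑ i, n i) / (∑ i, n i + 1)) →
    ∃ x : Fin r → Var n → ℂ,
      finrank ℂ ↥(Sng (Sigma.fst : Var n → Fin k) d x) ≤
        finrank ℂ (MultiHom n d) - r * (∑ i, n i + 1)

/-- SGT (assembly; uses: SGC, SV ALR). THE THEOREM. -/
def SGT_stmt : Prop :=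
  ∀ (k : ℕ) (n d : Fin k → ℕ), (∀ i, 1 ≤ n i) → (∀ i, 1 ≤ d i) → ∀ j : Fin k, d j = 1 → 2 ≤ n j →
    ∀ T : Finset (Fin k), j ∉ T → ∑ i ∈ T, d i = 3 →
    3 * (n j + 13) * (∑ i, n i - n j + 1) ^ 2 * (∑ i, n i + 1) ≤
      4 * n j * ∏ i ∈ Finset.univ.erase j, (n i + d i).choose (n i) →
    ¬ Special n d

theorem SGT (hC : SGC_stmt) (hA : ALR_stmt) : SGT_stmt := by
  intro k n d hn hd j hj hnj T hT hT3 hM
  exact hA k n d (by have := j.2; omega) hd (hC k n d hn hd j hj hnj T hT hT3 hM)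

/-- EQN (medium; arithmetic). PROOF. `k = 11`: `3 (n+13)(10n+1)²(11n+1) ≤ 4 n (n+1)^{10}` for `n ≥ 2`
(`n = 2`: `456435 ≤ 472392`; then e.g. `(n+1)^{10} ≥ 3^6 (n+1)^4` and compare polynomials of degree
`5`, or induction on `n`). Step `k → k+1`: the left side is multiplied by at most
`(11/10)² (12/11) < 3 ≤ n + 1`. -/
def EQN_stmt : Prop :=
  ∀ k n : ℕ, 11 ≤ k → 2 ≤ n →
    3 * (n + 13) * ((k - 1) * n + 1) ^ 2 * (k * n + 1) ≤ 4 * n * (n + 1) ^ (k - 1)

/-- EQS (short; uses: SGT, EQN). Segre varieties with equal factors: `n = (n, .., n)`, `d = (1, .., 1)`,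
`j = 0`, `T = {1, 2, 3}`. -/
def EQS_stmt : Prop :=
  ∀ k n : ℕ, 11 ≤ k → 2 ≤ n → ¬ Special (fun _ : Fin k => n) (fun _ => 1)

end Pool.Agent.SG
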