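import Pool.Agent.helper80.SG.Defs2

/-!
# Project sq: (MP_b5a345_ag, a factor of degree one: Segre varieties, second version)

Quadratic threshold. The first version (project sg:, all modules proved) used two types of
conditions; here we use five types (double points and the four roles), so that no condition is
wasted. Paper: /team-store/SQ_NOTES_helper80.md. Everything of `SG/Spec.lean` and `SV/Spec.lean` is
PROVED and may be used as hypothesis (or imported from `Pool.Agent.helper80.SV.Core`,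
`Pool.Agent.helper80.SG.Core`).
-/

set_option autoImplicit false
set_option linter.unusedSectionVars false

namespace Pool.Agent.SG

open MvPolynomial Module Pool.Agent.SV

/-! ## Part A: several types of conditions, abstract (compare SV UG, MON, RKB, ZER, BCA, SG ABW) -/

/-- UGM (medium; uses: SV GKR, GAL). Uniform configurations are generic.
PROOF. For `S : τ → Finset ℕ` with `S t ⊆ range n` the property
`finrank (KerS Φ S x) ≤ dmM Φ (card ∘ S)` is generic in `x : τ → ℕ → P` by GKR: `KerS Φ S x` is the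
kernel of the linear map `v ↦ (t, i, j) ↦ (if i ∈ S t then Φ t (x t i) v j else 0)` to functions on the
finite set `τ × Fin n × J`; it holds somewhere: take `x₀` from `exists_dmM` for `a = card ∘ S` and
`x t i = x₀ t (index of i in S t)` (`S t ≃ range (a t)`). The opposite inequality `≥` holds for all `x`
(same reindexing, `dmM_le`). There are finitely many `S` (GAL over the subtype; equivalently over
`τ → Finset (Fin n)`). -/
def UGM_stmt : Prop :=
  ∀ {τ E P J : Type} [Fintype τ] [DecidableEq τ] [AddCommGroup E] [Module ℂ E] [Module.Finite ℂ E]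
    [AddCommGroup P] [Module ℂ P] [Finite J] (Φ : τ → P → E →ₗ[ℂ] (J → ℂ)), LinePolyM Φ →
    ∀ n : ℕ, Gen (fun x : τ → ℕ → P => UniM Φ n x)

/-- MNM (medium; uses: UGM). PROOF. Take `x` with `UniM Φ n x`, `n = ∑ a + 2`. First claim:
`KerS` for `S t = range (a t)` contains `KerS` with one more index. Second: `ccM Φ o a` is the
dimension of `Φ o (x o i₀) (KerS Φ S x)` for any `S ⊆ range n` with `card ∘ S = a` and
`i₀ ∈ range n`, `i₀ ∉ S o` (rank-nullity, uniformity); the image of a smaller space is smaller. -/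
def MNM_stmt : Prop :=
  ∀ {τ E P J : Type} [Fintype τ] [DecidableEq τ] [AddCommGroup E] [Module ℂ E] [Module.Finite ℂ E]
    [AddCommGroup P] [Module ℂ P] [Finite J] (Φ : τ → P → E →ₗ[ℂ] (J → ℂ)), LinePolyM Φ →
    ∀ (o t : τ) (a : τ → ℕ), dmM Φ (a + Pi.single t 1) ≤ dmM Φ a ∧
      ccM Φ o (a + Pi.single t 1) ≤ ccM Φ o a

/-- RKM (short). PROOF as SV RKB: one more condition lowers the dimension of the kernel by at most
its rank (choose `x` optimal for `a + single t 1`, its kernel is the kernel of one map of rank `≤ D`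
on `KerS` for `a`, of dimension `≥ dmM Φ a`); `dmM Φ 0 = finrank E`; the last claim: at the given
point the kernel has dimension `finrank E - rank`. -/
def RKM_stmt : Prop :=
  ∀ {τ E P J : Type} [Fintype τ] [DecidableEq τ] [AddCommGroup E] [Module ℂ E] [Module.Finite ℂ E]
    [AddCommGroup P] [Module ℂ P] [Finite J] (Φ : τ → P → E →ₗ[ℂ] (J → ℂ)),
    dmM Φ 0 = finrank ℂ E ∧
    (∀ (t : τ) (D : ℕ), (∀ x, finrank ℂ (LinearMap.range (Φ t x)) ≤ D) →
      ∀ a, dmM Φ a ≤ dmM Φ (a + Pi.single t 1) + D) ∧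
    (∀ (o : τ) (D : ℕ) (x : P), D ≤ finrank ℂ (LinearMap.range (Φ o x)) → D ≤ ccM Φ o 0)

/-- ZRM (short). PROOF. If `f` is in the kernel and visible choose `p` with `Φ o p f ≠ 0`; put `p` at
the index `a o` of type `o`: the kernel for `a + single o 1` is strictly smaller, so
`ccM Φ o a > 0`. -/
def ZRM_stmt : Prop :=
  ∀ {τ E P J : Type} [Fintype τ] [DecidableEq τ] [AddCommGroup E] [Module ℂ E] [Module.Finite ℂ E]
    [AddCommGroup P] [Module ℂ P] [Finite J] (Φ : τ → P → E →ₗ[ℂ] (J → ℂ)) (o : τ) (V : E → Prop),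
    (∀ f, V f → ∃ p, Φ o p f ≠ 0) → ∀ (a : τ → ℕ) (x : τ → ℕ → P), ccM Φ o a = 0 →
    finrank ℂ (KerS Φ (fun t => Finset.range (a t)) x) = dmM Φ a →
    ∀ f ∈ KerS Φ (fun t => Finset.range (a t)) x, ¬ V f

/-- BCM (LONG; uses: SV T1). THE DROP LEMMA for several types; compare SV BCA
(`Pool/Agent/helper34/SV/BCA.lean`). Only the types which are present (`0 < a t`) matter.
PROOF. Suppose `f ∈ KerS Φ S x`, `V f`. Choose `S' t ⊆ range n` disjoint from `S t` with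
`|S' t| = a t` and `i₀ < n`, `i₀ ∉ S o ∪ S' o` (`n ≥ 2 a t + 1`). For `R : τ → Finset ℕ`, `R t ⊆ range n`,
`i₀ ∉ R o` put `U(R) = Φ o (x o i₀) (KerS Φ R x)`, of dimension `ccM Φ o (card ∘ R)` (uniformity).
EXCHANGE: `R, R'` of sizes `a` which differ by one exchange in type `t` (so `a t > 0`): `R ∪ R'` has
sizes `a + single t 1`, `U(R ∪ R') ⊆ U(R) ∩ U(R')` and all three have dimension `ccM Φ o a`, so
`U(R) = U(R')`. Exchanging one after the other `U(S) = U(S')`. Since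
`dim U(S') = ccM Φ o a < ccM Φ o 0 = dim Φ o (x o i₀) E` there is a linear functional `l` with
`l = 0` on `U(S')` and `l (Φ o (x o i₀) g) ≠ 0` for some `g`. DEFORMATION: `DefM` for `f`, `x o i₀`, `l`
gives `α, H`; replace `x t i` by `α z (x t i)` for `i ∈ S t` (all other points unchanged). For all but
finitely many `z` the finitely many kernels in question (`R t ⊆ S t ∪ S' t`, with or without `i₀`)
still have dimension `≤ dmM`, hence `=` (T1 on the curve; `dmM_le` with reindexing gives `≥`), so the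
exchange argument gives `U_z(S) = U(S')` (the right side does not move), and
`H z f ∈ KerS` of the moved configuration. So `l (Φ o (x o i₀) (H z f)) = 0` for all but finitely many
`z`; it is a `PolyFun`, so it vanishes for `z = 1`: contradiction. (Prove the exchange argument once,
for an arbitrary configuration all of whose subconfigurations in question have the minimal
dimension.) -/
def BCM_stmt : Prop :=
  ∀ {τ E P J : Type} [Fintype τ] [DecidableEq τ] [AddCommGroup E] [Module ℂ E] [Module.Finite ℂ E]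
    [AddCommGroup P] [Module ℂ P] [Finite J] (Φ : τ → P → E →ₗ[ℂ] (J → ℂ)) (o : τ) (V : E → Prop),
    DefM Φ o V → ∀ (n : ℕ) (x : τ → ℕ → P) (a : τ → ℕ), UniM Φ n x → (∀ t, 2 * a t + 1 ≤ n) →
    (∀ t, 0 < a t → ccM Φ o (a + Pi.single t 1) = ccM Φ o a) → ccM Φ o a < ccM Φ o 0 →
    ∀ S : τ → Finset ℕ, (∀ t, S t ⊆ Finset.range n) → (∀ t, (S t).card = a t) →
    ∀ f ∈ KerS Φ S x, ¬ V f

/-- ABM (LONG, abstract; uses: BCM, ZRM, MNM, RKM, UGM). THE WINDOW LEMMA; compare SG ABW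
(`Pool/Agent/helper23/SG/ABW.lean`): `g` further conditions of type `o` are independent.
PROOF. `N = ccM Φ o 0 ≤ D o`. (*) If `ccM Φ o a' < N` and `ccM Φ o (a' + single t 1) = ccM Φ o a'` for
all `t` with `0 < a' t`, or if `ccM Φ o a' = 0`, then `dmM Φ a' = 0` (BCM with a uniform configuration
of size `2 ∑ a' + 1`, `S t = range (a' t)`; ZRM; visible = non zero).
Claim: `ccM Φ o (a + single o b) = N` for all `b < g`. Otherwise `ccM Φ o (a + single o b₀) < N` for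
some `b₀ < g` (MNM). Starting from `a + single o b₀` add one condition (of a suitable type) at a time
as long as `ccM Φ o > 0` and `dmM > 0`, such that `ccM Φ o` drops (MNM, (*)). After `i ≤ N - 1` steps
`dmM Φ a' = 0`. But (RKM) `dmM Φ a' ≥ finrank E - ∑ a t D t - b₀ D o - i B > 0`, because
`b₀ ≤ g - 1`, `i ≤ D o - 1`, `D o + B ≥ 1`. Contradiction. Sum over `b < g`. -/
def ABM_stmt : Prop :=
  ∀ {τ E P J : Type} [Fintype τ] [DecidableEq τ] [AddCommGroup E] [Module ℂ E] [Module.Finite ℂ E]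
    [AddCommGroup P] [Module ℂ P] [Finite J] (Φ : τ → P → E →ₗ[ℂ] (J → ℂ)), LinePolyM Φ →
    ∀ o : τ, DefM Φ o (fun f : E => f ≠ 0) → (∀ f : E, f ≠ 0 → ∃ p, Φ o p f ≠ 0) →
    ∀ (D : τ → ℕ) (B : ℕ), (∀ t x, finrank ℂ (LinearMap.range (Φ t x)) ≤ D t) → (∀ t, D t ≤ B) →
    ∀ (a : τ → ℕ) (g : ℕ), ∑ t, a t * D t + g * D o + D o * B ≤ finrank ℂ E →
      dmM Φ (a + Pi.single o g) + g * ccM Φ o 0 = dmM Φ a

/-! ## Part B: the five types -/

/-- LP5 (short; uses: SV PLY; compare SG LPC, CPL). -/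
def LP5_stmt : Prop :=
  ∀ {ι κ : Type} [Fintype ι] [DecidableEq ι] [Fintype κ] [DecidableEq κ] (c : ι → κ)
    (T : Finset κ) (d : κ → ℕ), LinePolyM (Phi5 c T d)

/-- HM2 (medium; uses: SV HOM, HON). (1) on monomials (HOM gives the values; for derivatives apply it
to `pderiv i f` or compute on monomials). (2) both sides take the same value at every `y`
(`eval y (bind₁ φ f) = eval (fun i => eval y (φ i)) f`, `eval y (hsub .. 1 i) = w i * L_{c i}(y)`, HOM;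
compare the proof of SV HON, `Pool/Agent/helper92/SV/HON.lean`), so they are equal
(`MvPolynomial.funext`). -/
def HM2_stmt : Prop :=
  ∀ {ι κ : Type} [Fintype ι] [DecidableEq ι] [Fintype κ] [DecidableEq κ] (c : ι → κ)
    (d : κ → ℕ), ∀ f ∈ Sec c Finset.univ d,
    (∀ (s : κ → ℂ) (x : ι → ℂ) (i : ι), s (c i) * eval (fun l => s (c l) * x l) (pderiv i f) =
      (∏ k, s k ^ d k) * eval x (pderiv i f)) ∧
    (∀ L w : ι → ℂ, bind₁ (hsub c Finset.univ L w 1) f = C (eval w f) * Lprod c Finset.univ d L)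

/-- EQV (medium; uses: HM2, SV HOM, CHN, HPT). Behaviour of the functionals under the deformation.
Put `h(y) = (eval y (hsub c univ L w z i))_i`, `x̃ = hpt c univ L w z x`,
`s k = (1-z)(1 - z + z L_k(w))`; then `h(x̃) i = s (c i) * x i` and the same for every vector supported
on some colours (computation as in SV HPT).
PROOF. (V): `eval x̃ (bind₁ φ f) = eval (h x̃) f = (∏ s^d) eval x f` (HOM). (T): by CHN
`∑_{c i ∈ T} x̃'_i ∂_i (f ∘ h)(x̃) = ∑_l ∂_l f (h x̃) ∑_{c i ∈ T} x̃'_i ∂_i h_l`, and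
`∑_{c i ∈ T} x̃'_i ∂_i h_l = h_l (x̃' cut to the colours of T) = s (c l) x'_l` if `c l ∈ T` and `0`
otherwise (`h_l` is linear in the variables of colour `c l`); by HM2
`s (c l) ∂_l f (s x) = (∏ s^d) ∂_l f (x)`. -/
def EQV_stmt : Prop :=
  ∀ {ι κ : Type} [Fintype ι] [DecidableEq ι] [Fintype κ] [DecidableEq κ] (c : ι → κ)
    (d : κ → ℕ) (L w : ι → ℂ) (z : ℂ), ∃ S : ℂ, ∀ f ∈ Sec c Finset.univ d,
    (∀ x : ι → ℂ, eval (hpt c Finset.univ L w z x) (bind₁ (hsub c Finset.univ L w z) f) =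
      S * eval x f) ∧
    (∀ x : ι → ℂ, (∀ i, eval x (pderiv i f) = 0) → ∀ i,
      eval (hpt c Finset.univ L w z x) (pderiv i (bind₁ (hsub c Finset.univ L w z) f)) = 0) ∧
    (∀ (T : Finset κ) (x x' : ι → ℂ),
      ∑ i ∈ Finset.univ.filter (fun i => c i ∈ T), hpt c Finset.univ L w z x' i *
        eval (hpt c Finset.univ L w z x) (pderiv i (bind₁ (hsub c Finset.univ L w z) f)) =
      S * ∑ i ∈ Finset.univ.filter (fun i => c i ∈ T), x' i * eval x (pderiv i f))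

/-- DF5 (medium; uses: HM2, EQV, SV PLY, HSB, HPT, SPN; compare SG DFC,
`Pool/Agent/helper53/SG/DFC.lean`). PROOF. As DFC: `w` with `eval w f ≠ 0`, the functional
`μ = ∑_o l(e_o) • (if used5 t₀ o then roleF c T P₀ o else 0)` (`t₀` = the type `o` of DefM) on
polynomials, `L` with `μ (Lprod c univ d L) ≠ 0` (SPN),
`α z (x, x') = (hpt c univ L w z x, hpt c univ L w z x')`, `H z f' = bind₁ (hsub c univ L w z) f'`;
`ptc c T a (α z P) = hpt c univ L w z (ptc c T a P)`. Preservation of the conditions: EQV (values,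
gradients, target functional). At `z = 1`: HM2 (2), so the functionals of `H 1 f` are
`eval w f` times those of `Lprod`. -/
def DF5_stmt : Prop :=
  ∀ {ι κ : Type} [Fintype ι] [DecidableEq ι] [Fintype κ] [DecidableEq κ] (c : ι → κ)
    (T : Finset κ) (d : κ → ℕ) (o : Option (Fin 4)),
    DefM (Phi5 c T d) o (fun f : ↥(Sec c Finset.univ d) => f ≠ 0)

/-- VS5 (short; uses: SV VIS). PROOF. Types `some 0, some 1, some 2` contain the value at
`ptc 0 P = P.1`: choose `P = (w, 0)` with `eval w f ≠ 0`. Types `none`, `some 3` contain the gradient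
at `P.1`: VIS (compare SG VSC). -/
def VS5_stmt : Prop :=
  ∀ {ι κ : Type} [Fintype ι] [DecidableEq ι] [Fintype κ] [DecidableEq κ] (c : ι → κ)
    (T : Finset κ) (d : κ → ℕ), (∃ k, 1 ≤ d k) → ∀ (o : Option (Fin 4))
    (f : ↥(Sec c Finset.univ d)), f ≠ 0 → ∃ P, Phi5 c T d o P f ≠ 0

/-- RU5 (medium; uses: SV RKU). Upper bounds for the ranks. PROOF: a gradient at a point has rank
`≤ Dk` (RKU with `Phi1`, `A = univ`), a value and the target functional have rank `≤ 1`; the kernel of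
`Phi5 t P` is an intersection of the kernels of: one gradient (`none`); two gradients (`some 3`); one
gradient and two values (`some 2`); three values and one functional (`some 1`); three values
(`some 0`). -/
def RU5_stmt : Prop :=
  ∀ {ι κ : Type} [Fintype ι] [DecidableEq ι] [Fintype κ] [DecidableEq κ] (c : ι → κ)
    (T : Finset κ) (d : κ → ℕ), (∀ k, ∃ i, c i = k) → ∀ t P,
    finrank ℂ (LinearMap.range (Phi5 c T d t P)) ≤ rk5 (Dk c Finset.univ d) t

/-- RL5 (medium; uses: RLS, RLH, RLT (sg:), ID3 (sg:), SV EUL, RKL). Lower bounds. PROOF: for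
`some ρ`: `ker (Phi5 (some ρ) P) ≤ ker (roleS ρ P)` (the functionals of `roleS` which are missing in
`Phi5`: for `ρ = 2` the value at the point `2`, a consequence of the gradient there, EUL; for `ρ = 3`
the values at `0, 1` (EUL) and at `2` (ID3)), so the rank of `Phi5` is at least that of `roleS`: RLS,
RLH, RLT. For `none`: RKL. -/
def RL5_stmt : Prop :=
  ∀ {ι κ : Type} [Fintype ι] [DecidableEq ι] [Fintype κ] [DecidableEq κ] (c : ι → κ)
    (T : Finset κ) (d : κ → ℕ), (∀ k, ∃ i, c i = k) → (∀ k ∈ T, 1 ≤ d k) →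
    (∀ k ∈ T, ∃ i i', i ≠ i' ∧ c i = k ∧ c i' = k) → ∑ k ∈ T, d k = 3 →
    ∀ t, ∃ P, rk5 (Dk c Finset.univ d) t ≤ finrank ℂ (LinearMap.range (Phi5 c T d t P))

/-- TT5 (medium; uses: ABM, RKM, LP5, DF5, VS5, RU5, RL5). All dimensions. `D = Dk c univ d`.
PROOF. `ccM Φ t 0 = rk5 D t` for every type (RU5, RL5, RKM). `B = 2 D` bounds all ranks (`D ≥ 2`).
ABM five times, in the order `some 3, some 2, none, some 1, some 0`, starting from `a = 0`
(`dmM Φ 0 = finrank E`). Windows `∑ .. + D_o B ≤ finrank E`: sources `q 3 2D + 2D 2D`; hosts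
`.. + q 2 (D+2) + (D+2) 2D`, `(D+2) 2 D ≤ 4 D²`; doubles `.. + b D + D 2D`; targets `.. + 4 (2D)`,
`8 D ≤ 2 D² + 8`; role 0: `.. + 3 (2D)`. -/
def TT5_stmt : Prop :=
  ∀ {ι κ : Type} [Fintype ι] [DecidableEq ι] [Fintype κ] [DecidableEq κ] (c : ι → κ)
    (T : Finset κ) (d : κ → ℕ), (∀ k, ∃ i, c i = k) → (∀ k ∈ T, 1 ≤ d k) →
    (∀ k ∈ T, ∃ i i', i ≠ i' ∧ c i = k ∧ c i' = k) → ∑ k ∈ T, d k = 3 →
    2 ≤ Dk c Finset.univ d → ∀ (b : ℕ) (q : Fin 4 → ℕ),
    b * Dk c Finset.univ d + ∑ ρ, q ρ * rk (Dk c Finset.univ d) ρ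
      + 2 * Dk c Finset.univ d ^ 2 + 8 ≤ finrank ℂ (Sec c Finset.univ d) →
    q 3 * (2 * Dk c Finset.univ d) + q 2 * (Dk c Finset.univ d + 2) + 4 * Dk c Finset.univ d ^ 2 ≤
      finrank ℂ (Sec c Finset.univ d) →
    dmM (Phi5 c T d) (fun t => match t with
        | none => b
        | some ρ => q ρ) + b * Dk c Finset.univ d + ∑ ρ, q ρ * rk (Dk c Finset.univ d) ρ =
      finrank ℂ (Sec c Finset.univ d)

/-- CN1 (medium; uses: TT5). One component without the simple points (same conclusion as SG CM1).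
PROOF. `q ρ = |{γ : role γ = ρ}|`; `∑_γ rk (role γ) = ∑_ρ q ρ rk ρ`. Take `z` optimal
(`exists_dmM`) for the numbers of TT5; number the `γ` of each role by `range (q ρ)`; put
`x i = z none i`, `y γ = z (some (role γ)) (number of γ)`. If `f` lies in the space of CN1 then all
conditions of `KerS` hold: `used5 (some ρ) o = true` implies `used ρ o = true`. -/
def CN1_stmt : Prop :=
  ∀ {ι κ : Type} [Fintype ι] [DecidableEq ι] [Fintype κ] [DecidableEq κ] (c : ι → κ)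
    (T : Finset κ) (d : κ → ℕ), (∀ k, ∃ i, c i = k) → (∀ k ∈ T, 1 ≤ d k) →
    (∀ k ∈ T, ∃ i i', i ≠ i' ∧ c i = k ∧ c i' = k) → ∑ k ∈ T, d k = 3 →
    2 ≤ Dk c Finset.univ d → ∀ (b g : ℕ) (role : Fin g → Fin 4),
    b * Dk c Finset.univ d + ∑ γ, rk (Dk c Finset.univ d) (role γ)
      + 2 * Dk c Finset.univ d ^ 2 + 8 ≤ finrank ℂ (Sec c Finset.univ d) →
    ∑ γ, rkb (Dk c Finset.univ d) (role γ) + 4 * Dk c Finset.univ d ^ 2 ≤
      finrank ℂ (Sec c Finset.univ d) →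
    ∃ (x : Fin b → (ι → ℂ) × (ι → ℂ)) (y : Fin g → (ι → ℂ) × (ι → ℂ)),
      finrank ℂ ↥((⨅ i, LinearMap.ker (PhiC c T d true (x i))) ⊓
        ⨅ γ, LinearMap.ker (roleS c T d (role γ) (y γ))) ≤
      finrank ℂ (Sec c Finset.univ d) - b * Dk c Finset.univ d
        - ∑ γ, rk (Dk c Finset.univ d) (role γ)

/-- CNP (medium; uses: CN1, CPL (sg:), SV SMP, GKR). Same proof as SG CMP
(`Pool/Agent/helper63/SG/CMP.lean`), with CN1 instead of CM1. -/
def CNP_stmt : Prop :=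
  ∀ {ι κ : Type} [Fintype ι] [DecidableEq ι] [Fintype κ] [DecidableEq κ] (c : ι → κ)
    (T : Finset κ) (d : κ → ℕ), (∀ k, ∃ i, c i = k) → (∀ k ∈ T, 1 ≤ d k) →
    (∀ k ∈ T, ∃ i i', i ≠ i' ∧ c i = k ∧ c i' = k) → ∑ k ∈ T, d k = 3 →
    2 ≤ Dk c Finset.univ d →
    ∀ {L Γ : Type} [Fintype L] [Fintype Γ] (dbl : L → Bool) (role : Γ → Fin 4),
    (Finset.univ.filter (fun l => dbl l = true)).card * Dk c Finset.univ d
      + ∑ γ, rk (Dk c Finset.univ d) (role γ) + 2 * Dk c Finset.univ d ^ 2 + 8 ≤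
      finrank ℂ (Sec c Finset.univ d) →
    ∑ γ, rkb (Dk c Finset.univ d) (role γ) + 4 * Dk c Finset.univ d ^ 2 ≤
      finrank ℂ (Sec c Finset.univ d) →
    Gen (fun Z : (L → ι → ℂ) × (Γ → (ι → ℂ) × (ι → ℂ)) =>
      finrank ℂ (LinearMap.ker (compL c T d dbl role Z)) ≤
        finrank ℂ (Sec c Finset.univ d)
          - (Finset.univ.filter (fun l => dbl l = true)).card * Dk c Finset.univ d
          - ∑ γ, rk (Dk c Finset.univ d) (role γ)
          - (Finset.univ.filter (fun l => dbl l = false)).card)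

/-! ## Part C: numbers and assembly -/

/-- HS2 (medium; combinatorics). The hosts. PROOF. If `|A| ≥ 2` let `next : A → A` be a cyclic
permutation of `A` without fixed point and `host γ = next (src γ)` (`tgt γ ∉ A`), fibres at most `p`.
Otherwise `|Aᶜ| ≥ 2`: `next : Aᶜ → Aᶜ`, `host γ = next (tgt γ)` (`src γ ∈ A`), fibres at most `q`. -/
def HS2_stmt : Prop :=
  ∀ {C : Type} [Fintype C] [DecidableEq C] (A : Finset C), (2 ≤ A.card ∨ 2 ≤ Aᶜ.card) →
    ∀ (g p q : ℕ) (src tgt : Fin g → C), (∀ γ, src γ ∈ A) → (∀ γ, tgt γ ∉ A) →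
    (∀ v, (Finset.univ.filter (fun γ => src γ = v)).card ≤ p) →
    (∀ v, (Finset.univ.filter (fun γ => tgt γ = v)).card ≤ q) →
    ∃ host : Fin g → C, (∀ γ, host γ ≠ src γ ∧ host γ ≠ tgt γ) ∧
      ((∀ v, (Finset.univ.filter (fun γ => host γ = v)).card ≤ if v ∈ A then p else 0) ∨
        ∀ v, (Finset.univ.filter (fun γ => host γ = v)).card ≤ if v ∈ A then 0 else q)

/-- AN2 (medium; arithmetic, brute-force checked for 10^8 data). `D = m + n + 1`, `σ = s / (m+1)`,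
(T) `D (n+1) (2n+3m+3) ≤ m M`.
PROOF. (a), (a') from the definition of `s`; `(m+1) σ ≤ s ≤ (m+1) σ + m`.
(b) `(m+1)(σ+1) D ≥ (s+1) D ≥ (m+1) M - (m+n) + D > (m+1) M`, so `(σ+1) D > M`, and
`m M ≥ 3 m (n+1) D`, so `σ + 1 > 3 (n+1)`.
(c) `(m+1) σ D ≤ s D ≤ (m+1) M + (m+n)`. Multiply the claim by `4 (m+1) D`:
`4 (m+1) D σ (n+1) ≤ 4 (n+1)(m+1) M + 4 (n+1)(m+n)`,
`4 (m+1) D M - 4 (n+1)(m+1) M = 4 (m+1) m M ≥ 4 (m+1) D (n+1)(2n+3m+3)`, and `4 g ≤ n (m+1)`; it
remains `4 (m+1) D (n+1)(2n+3m+3) ≥ 4 (n+1)(m+n) + (m+1) D (4 (n+1) + 3 n (m+1) + 4 n + 8 (n+1)² +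
32)`; as `m + n ≤ D` it suffices `4 (m+1)(n+1)(2n+3m+3) ≥ 4 (n+1) + (m+1)(4 (n+1) + 3n(m+1) + 4n +
8 (n+1)² + 32)`, polynomials with `m ≥ 2`, `n ≥ 1` (put `m = m' + 2`, `n = n' + 1`).
(d) `M ≥ D (n+1)(2n+3m+3)/m`; `D (2n+3m+3) = (m+n+1)(2(n+1)+3m+1) ≥ m (7n² + ..)/(n+1)`: claim
`m (n (3n+5) + 4 (n+1)²) ≤ (m+n+1)(n+1)(2n+3m+3)`, since with `N = n+1` the right side is
`≥ N (2 N² + 5 m N + 3 m²) ≥ m N² (5 + 2 √6) ≥ 9 m N²` (i.e. `2 N² + 3 m² ≥ 4 m N`) and
`n (3n+5) + 4 N² ≤ 7 N²`. -/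
def AN2_stmt : Prop :=
  ∀ m n M s : ℕ, 2 ≤ m → 1 ≤ n → (m + n + 1) * (n + 1) * (2 * n + 3 * m + 3) ≤ m * M →
    (s = (m + 1) * M / (m + n + 1) ∨ s = ((m + 1) * M + (m + n)) / (m + n + 1)) →
    (s * (m + n + 1) ≤ (m + 1) * M + (m + n)) ∧ ((m + 1) * M ≤ s * (m + n + 1) + (m + n)) ∧
    3 * n ≤ s / (m + 1) + 3 ∧
    (∀ g : ℕ, 4 * g ≤ n * (m + 1) →
      (s / (m + 1) + 1) * (n + 1) + 3 * g + n + 2 * (n + 1) ^ 2 + 8 ≤ M) ∧
    n * (3 * n + 5) + 4 * (n + 1) ^ 2 ≤ M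

/-- AG2 (LONG; combinatorics; uses: AN2, HS2, TRN, CFN, RKS (sg:)). THE DISTRIBUTION OF THE POINTS.
Same proof as SG ASG (`Pool/Agent/helper91/SG/ASG.lean`) with the hosts of HS2 (`|A₀| ≥ 2` or
`|C ∖ A₀| ≥ 2` as `|C| ≥ 3`): `own v ≤ p ≤ n - 1`, `tg v ≤ q ≤ n - 1`, where `p, q` bound the fibres of
`src, tgt` (`p = n - x`, `q = x` in both cases 2 and 4 of ASG).
`b v = S v - 2 own v - hst v ≥ 0`: on `A₀` `S v = σ + 1 ≥ 3 (n-1) + 1` and `2 own v + hst v ≤ 3 p`; off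
`A₀` `hst v ≤ q ≤ n - 1 ≤ σ` (AN2 (b)).
Windows: by RKS `b (n+1) + ∑ rk = S (n+1) + 3 g - 3 own - hst + tg ≤ (σ+1)(n+1) + 3 g + n` (AN2 (c),
`4 g ≤ n (m+1)`), `∑ rkb = 2 (n+1) own + (n+3) hst ≤ n (3n+5)` (AN2 (d)). The inequalities for `e` and
the sum are exactly as in ASG. -/
def AG2_stmt : Prop :=
  ∀ {C : Type} [Fintype C] [DecidableEq C] (m n M s : ℕ), Fintype.card C = m + 1 →
    2 ≤ m → 1 ≤ n → (m + n + 1) * (n + 1) * (2 * n + 3 * m + 3) ≤ m * M →
    (s = (m + 1) * M / (m + n + 1) ∨ s = ((m + 1) * M + (m + n)) / (m + n + 1)) →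
    ∃ (R g : ℕ) (comp : Fin R → C) (src tgt host : Fin g → C) (A : Finset C) (e : C → ℕ),
      R + 3 * g = s ∧
      (∀ γ, src γ ∈ A ∧ tgt γ ∉ A ∧ host γ ≠ src γ ∧ host γ ≠ tgt γ) ∧
      (∀ v, (Finset.univ.filter (fun l => comp l = v)).card * (n + 1)
        + ∑ γ, rk (n + 1) (roleOf (src γ) (tgt γ) (host γ) v) + 2 * (n + 1) ^ 2 + 8 ≤ M) ∧
      (∀ v, ∑ γ, rkb (n + 1) (roleOf (src γ) (tgt γ) (host γ) v) + 4 * (n + 1) ^ 2 ≤ M) ∧
      (∀ v, M - (Finset.univ.filter (fun l => comp l = v)).card * (n + 1)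
        - ∑ γ, rk (n + 1) (roleOf (src γ) (tgt γ) (host γ) v)
        - (Finset.univ.filter (fun l => comp l ≠ v)).card ≤ e v) ∧
      (∀ v ∈ A, e v = 0) ∧
      ∑ v ∈ Finset.univ.filter (fun v => v ∉ A), e v ≤ (m + 1) * M - s * (m + n + 1)

/-- SC2 (medium; uses: CNP, AG2, ASM (sg:), SV DIM, GAL, MHS). Same proof as SG SGC
(`Pool/Agent/helper61/SG/SGC.lean`) with CNP, AG2 instead of CMP, ASG. -/
def SC2_stmt : Prop :=
  ∀ (k : ℕ) (n d : Fin k → ℕ), (∀ i, 1 ≤ n i) → (∀ i, 1 ≤ d i) → ∀ j : Fin k, d j = 1 → 2 ≤ n j →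
    ∀ T : Finset (Fin k), j ∉ T → ∑ i ∈ T, d i = 3 →
    (∑ i, n i + 1) * (∑ i, n i - n j + 1) * (2 * (∑ i, n i - n j) + 3 * n j + 3) ≤
      n j * ∏ i ∈ Finset.univ.erase j, (n i + d i).choose (n i) →
    ∀ r : ℕ, (r = finrank ℂ (MultiHom n d) / (∑ i, n i + 1) ∨
      r = (finrank ℂ (MultiHom n d) + ∑ i, n i) / (∑ i, n i + 1)) →
    ∃ x : Fin r → Var n → ℂ,
      finrank ℂ ↥(Sng (Sigma.fst : Var n → Fin k) d x) ≤
        finrank ℂ (MultiHom n d) - r * (∑ i, n i + 1)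

/-- ST2 (assembly). THE THEOREM. -/
def ST2_stmt : Prop :=
  ∀ (k : ℕ) (n d : Fin k → ℕ), (∀ i, 1 ≤ n i) → (∀ i, 1 ≤ d i) → ∀ j : Fin k, d j = 1 → 2 ≤ n j →
    ∀ T : Finset (Fin k), j ∉ T → ∑ i ∈ T, d i = 3 →
    (∑ i, n i + 1) * (∑ i, n i - n j + 1) * (2 * (∑ i, n i - n j) + 3 * n j + 3) ≤
      n j * ∏ i ∈ Finset.univ.erase j, (n i + d i).choose (n i) →
    ¬ Special n d

theorem ST2 (hC : SC2_stmt) (hA : ALR_stmt) : ST2_stmt := by
  intro k n d hn hd j hj hnj T hT hT3 hM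
  exact hA k n d (by have := j.2; omega) hd (hC k n d hn hd j hj hnj T hT hT3 hM)

/-- EN2 (medium; arithmetic). PROOF. For each `k ≤ 10` a polynomial inequality in one variable (put
`n = n' + n₀`, expand, `positivity`/`nlinarith`, or induction on `n`); for `k ≥ 10`, `n ≥ 2` induction
on `k` from `k = 10` (for `n = 2` the case `k = 10` is `21 · 19 · 45 = 17955 ≤ 2 · 3^9 = 39366`): the
left side is multiplied by at most `(11/10)(10/9)(23/21) < 3 ≤ n + 1`. -/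
def EN2_stmt : Prop :=
  ∀ k n : ℕ, ((k = 4 ∧ 106 ≤ n) ∨ (k = 5 ∧ 14 ≤ n) ∨ (k = 6 ∧ 6 ≤ n) ∨ (k = 7 ∧ 4 ≤ n) ∨
      (8 ≤ k ∧ 3 ≤ n) ∨ (10 ≤ k ∧ 2 ≤ n)) →
    (k * n + 1) * ((k - 1) * n + 1) * ((2 * k + 1) * n + 3) ≤ n * (n + 1) ^ (k - 1)

/-- ES2 (short; uses: ST2, EN2). Segre varieties with equal factors: `n = (n, .., n)`, `d = (1, .., 1)`,
`j = 0`, `T = {1, 2, 3}` (compare SG EQS, `Pool/Agent/helper55/SG/EQS.lean`). All but finitely many
pairs `(k, n)` with `k ≥ 4`, `n ≥ 2`. -/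
def ES2_stmt : Prop :=
  ∀ k n : ℕ, ((k = 4 ∧ 106 ≤ n) ∨ (k = 5 ∧ 14 ≤ n) ∨ (k = 6 ∧ 6 ≤ n) ∨ (k = 7 ∧ 4 ≤ n) ∨
      (8 ≤ k ∧ 3 ≤ n) ∨ (10 ≤ k ∧ 2 ≤ n)) →
    ¬ Special (fun _ : Fin k => n) (fun _ => 1)

end Pool.Agent.SG
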