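import Pool.Agent.helper80.SG.Spec2
import Pool.Agent.helper80.SV.Spec3

/-!
# Project bl: (MP_b5a345_ag): complete classification on many products of projective spaces

Short numeric modules. `THR_stmt` (SV Spec) and `ST2_stmt` (SG Spec2) are PROVED and are used as
hypotheses; so are `ZB_stmt`, `Z0_stmt` (SV Spec3). In all proofs: `N = ∑ n i`,
`hj n d j = C(n_j + d_j - 2, n_j - 1) * ∏_{i ≠ j} C(n_i + d_i, n_i)`, `C(n + d, n) ≥ n + 1` for `d ≥ 1`,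
`C(n + d, n) ≥ (n+1)(n+2)/2` for `d ≥ 2`, `C(n_j + d_j - 2, n_j - 1) ≥ n_j` for `d_j ≥ 2`,
`≥ n_j (n_j + 1)/2` for `d_j ≥ 3`, `≥ n_j (n_j+1) (n_j+2)/6` for `d_j ≥ 4` (`Nat.choose_le_choose`,
`Nat.choose_symm_diff`). All statements were tested on 260000 random data.
-/

set_option autoImplicit false

namespace Pool.Agent.SG

open Pool.Agent.SV

/-- MFA (medium; uses: THR, ST2). MANY FACTORS.
PROOF. `∏ (n i + 1) ≤ (N+1)^k`, so `k ≥ 4`. (1) Some `d j ≥ 3`: `2 hj ≥ n_j (n_j + 1) ∏_{i ≠ j} (n i + 1)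
≥ ∏ (n i + 1) ≥ 4 (N+1)^3`: THR (a). (2) Some `d j = 2`: `2 hj ≥ 2 n_j ∏_{i ≠ j} (n i + 1) ≥
∏ (n i + 1) ≥ 4 (N+1)^3`, so `hj ≥ 2 (N+1)^3`, and `N - n j + 1 ≤ 2 (N - n j - 1)` as `N - n j ≥ k - 1 ≥ 3`:
THR (b). (3) All `d i = 1`: some `m = n j ≥ 2`; `T` = any three indices `≠ j` (`k ≥ 4`);
`3 m ∏_{i ≠ j} (n i + 1) ≥ 2 ∏ (n i + 1) ≥ 8 (N+1)^3` and, with `n = N - m`,
`(n+1)(2n+3m+3) = (N+1-m)(2(N+1)+m+1) ≤ 2 (N+1)^2`: ST2. -/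
def MFA_stmt : Prop :=
  ∀ (k : ℕ) (n d : Fin k → ℕ), (∀ i, 1 ≤ n i) → (∀ i, 1 ≤ d i) →
    4 * (∑ i, n i + 1) ^ 3 ≤ ∏ i, (n i + 1) → ¬ (∀ i, n i = 1 ∧ d i = 1) → ¬ Special n d

/-- B2 (medium; uses: THR, ST2). Two factors.
PROOF. Let `j` be the index with `d j ≥ 3`, `i` the other one, `m = n i`, `n = n j`; `a = min (n, m)`,
`A = max (n, m)`: `110 A^3 ≤ a^4`, so `110 ≤ a`.
(1) `d i ≥ 2`: `hj ≥ n(n+1)/2 * (m+1)(m+2)/2 ≥ a^4/4` and `4 (N+1)^3 ≤ 4 (2A+1)^3 ≤ 33 A^3` (as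
`110 (2A+1) ≤ 221 A`): THR (a). (2) `d i = 1`, `d j ≥ 4`: `hj ≥ n(n+1)(n+2)/6 * (m+1) ≥ a^4/6`,
`6 (2A+1)^3 ≤ 49 A^3`: THR (a). (3) `d i = 1`, `d j = 3`: ST2 with the index `i`, `T = {j}`,
`M = C(n+3, n) = (n+1)(n+2)(n+3)/6`; to show `6 (n+m+1)(2n+3m+3) ≤ m (n+2)(n+3)`: left side
`≤ 6 (2A+1)(5A+3) ≤ 61 A^2`, right side `≥ a^3`, and `a^3 A ≥ a^4 ≥ 110 A^3`. -/
def B2_stmt : Prop :=
  ∀ (n d : Fin 2 → ℕ), (∀ i, 1 ≤ n i) → (∀ i l, 110 * n i ^ 3 ≤ n l ^ 4) → (∀ i, 1 ≤ d i) →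
    (∃ j, 3 ≤ d j) → ¬ Special n d

/-- B3 (medium; uses: THR, ST2). Three factors.
PROOF. `a = min`, `A = max` of the `n i`, `110 A^3 ≤ a^4`, `a ≥ 110`, `110 (3A+1) ≤ 331 A`.
(1) Some `d j ≥ 3`: `hj ≥ (n_j(n_j+1)/2)(a+1)^2 ≥ a^4/2`, `2 (N+1)^3 ≤ 2 (3A+1)^3 ≤ 55 A^3`: THR (a).
(2) All `d ≤ 2`, two of them `d j = d i = 2`: `hj ≥ n_j * (n_i+1)(n_i+2)/2 * (n_l+1) ≥ a^4/2`;
`(N - n_j + 1)(N+1)^3 ≤ (N - n_j - 1) hj` because `(N+1)^3 ≤ 28 A^3`, `hj ≥ 55 A^3` and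
`28 (n'+1) ≤ 55 (n'-1)` for `n' = N - n_j ≥ 220`: THR (b).
(3) Exactly one `d j = 2`, the two others `d i = d l = 1`: ST2 with the index `i`, `T = {l, j}`,
`m = n i`, `n = n l + n j ≤ 2A`, `M = (n l + 1)(n_j+1)(n_j+2)/2 ≥ a^3/2`. `a (2n+3m+3) ≤ 7Am + 3a` and
`110 * 3a ≤ 3Am`, so `110 a (2n+3m+3) ≤ 773 A m`; `110 (2A+1) ≤ 221 A`; product:
`a (N+1)(n+1)(2n+3m+3) ≤ 43 A^3 m ≤ a * m * a^3/2`. -/
def B3_stmt : Prop :=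
  ∀ (n d : Fin 3 → ℕ), (∀ i, 1 ≤ n i) → (∀ i l, 110 * n i ^ 3 ≤ n l ^ 4) → (∀ i, 1 ≤ d i) →
    (∃ j, 2 ≤ d j) → ¬ Special n d

/-- B4 (medium; uses: THR, ST2). Four factors.
PROOF. Notation of B3; `110 (4A+1) ≤ 441 A`. (1) Some `d j ≥ 3`: `hj ≥ (n_j(n_j+1)/2)(a+1)^3 ≥ a^5/2 ≥
a^4`, `(N+1)^3 ≤ (4A+1)^3 ≤ 65 A^3`: THR (a). (2) Some `d j = 2`: `hj ≥ n_j (a+1)^3 ≥ a^4 ≥ 110 A^3`,
`65 (n'+1) ≤ 110 (n'-1)`, `n' = N - n_j ≥ 330`: THR (b). (3) All `d i = 1`: ST2 with any index `j`,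
`T` = the three others, `m = n j`, `n = N - m ≤ 3A`, `M ≥ (a+1)^3 ≥ a^3`:
`110 a (2n+3m+3) ≤ 110 (6Am + 3Am) + 3Am = 993 A m`, `110 (3A+1) ≤ 331 A`,
`441 * 331 * 993 ≤ 109 * 110^3`: `a (N+1)(n+1)(2n+3m+3) ≤ 109 A^3 m ≤ a * m * a^3`. -/
def B4_stmt : Prop :=
  ∀ (n d : Fin 4 → ℕ), (∀ i, 1 ≤ n i) → (∀ i l, 110 * n i ^ 3 ≤ n l ^ 4) → (∀ i, 1 ≤ d i) →
    ¬ Special n d

/-- S11 (medium; uses: SV MHS, DIM, EUL, HOM or LOW-type counting; known, elementary). `O(1,1)` on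
`P^a × P^b`, `a, b ≥ 2`, is special.
PROOF. `r = 2`, `h = (a+1)(b+1)`, `N + 1 = a + b + 1`. For ALL `p : Fin 2 → Var n → ℂ`: let `U` be the
space of linear forms in the first group of variables vanishing at `p 0` and `p 1` (dimension
`≥ a - 1`), `V` the same for the second group (dimension `≥ b - 1`). Products `u v` lie in `Sys n d p`
(value and derivatives of `u v` vanish at `p l` because `u`, `v` do) and the products of basis elements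
are linearly independent (disjoint variables), so `finrank (Sys n d p) ≥ (a-1)(b-1) = h - 2(N+1) + 2`,
and `(a-1)(b-1) ≥ 1`: larger than `h - 2 (N+1)` (truncated). So `Independent` fails for all `p`, and
`General n 2 (Independent n d)` is false (for `F ≠ 0` the polynomial `F * ∏ X` does not vanish
identically, so there is `p` with all coordinates non zero and `F(p) ≠ 0`; compare
`Pool/Agent/helper61/SV/Z0.lean`). (Alternative for the dimension: the conditions `F(x_1,.) = 0`,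
`F(x_2,.) = 0`, `F(.,y_1) = 0`, `F(.,y_2) = 0` have rank `≤ 2 (a+b+2) - 4`.) -/
def S11_stmt : Prop :=
  ∀ (n d : Fin 2 → ℕ), (∀ i, 2 ≤ n i) → (∀ i, d i = 1) → Special n d

/-- BLN (short; uses: MFA, B2, B3, B4, S11, Z0). All `d ∈ ℕ^k`.
PROOF. If some `d i = 0`: Z0 (the second alternative is false). All `d i ≥ 1`: the first alternative
is false; in the first case of the hypothesis `k ≥ 4` (see MFA) and MFA; in the second case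
`k = 2`: if all `d i ≤ 2` then (exclusion) all `d i = 1`, S11 (`n i ≥ 110` from `110 n^3 ≤ n^4`),
otherwise B2; `k = 3`: B3; `k = 4`: B4. -/
def BLN_stmt : Prop :=
  ∀ (k : ℕ) (n : Fin k → ℕ), 2 ≤ k → (∀ i, 1 ≤ n i) →
    (4 * (∑ i, n i + 1) ^ 3 ≤ ∏ i, (n i + 1) ∨ (k ≤ 4 ∧ ∀ i l, 110 * n i ^ 3 ≤ n l ^ 4)) →
    ∀ d : Fin k → ℕ, ¬ (∀ i, n i = 1 ∧ d i = 1) →
      ¬ (k = 2 ∧ (∀ i, 1 ≤ d i ∧ d i ≤ 2) ∧ ∃ i, d i = 2) → ¬ (k = 3 ∧ ∀ i, d i = 1) →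
      (Special n d ↔ ((∃ i, d i = 0) ∧ 2 ≤ ∑ i, d i) ∨ (k = 2 ∧ ∀ i, d i = 1))

/-- BLZ (short; uses: BLN, ZB). THE CLASSIFICATION on all these products, all `d ∈ ℤ^k`.
PROOF. If some `d i < 0`: ZB (second half; the right side is false). Otherwise `d i = (e i : ℤ)`: ZB
(first half) and BLN. -/
def BLZ_stmt : Prop :=
  ∀ (k : ℕ) (n : Fin k → ℕ), 2 ≤ k → (∀ i, 1 ≤ n i) →
    (4 * (∑ i, n i + 1) ^ 3 ≤ ∏ i, (n i + 1) ∨ (k ≤ 4 ∧ ∀ i l, 110 * n i ^ 3 ≤ n l ^ 4)) →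
    ∀ d : Fin k → ℤ, ¬ (∀ i, n i = 1 ∧ d i = 1) →
      ¬ (k = 2 ∧ (∀ i, 1 ≤ d i ∧ d i ≤ 2) ∧ ∃ i, d i = 2) → ¬ (k = 3 ∧ ∀ i, d i = 1) →
      (SpecialZ n d ↔
        ((∀ i, 0 ≤ d i) ∧ (∃ i, d i = 0) ∧ 2 ≤ ∑ i, d i) ∨ (k = 2 ∧ ∀ i, d i = 1))

end Pool.Agent.SG
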